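import Pool.Agent.Q119.LD.Final
set_option autoImplicit false

/-!
# Asymptotic form of the bounds
-/

namespace Q119.LD

open Finset Filter

theorem eventually_log_ge (a : ℝ) : ∀ᶠ k : ℕ in atTop, a ≤ Real.log k :=
  (Real.tendsto_log_atTop.comp tendsto_natCast_atTop_atTop).eventually_ge_atTop a

theorem clog_le {k : ℕ} (hk : 1 < k) (hL : 1 ≤ Real.log k) :
    ((Nat.clog 2 k : ℕ) : ℝ) ≤ 3 * Real.log k := by
  have h1 := Nat.pow_pred_clog_lt_self (b := 2) (by norm_num) hk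
  have h0 : 1 ≤ Nat.clog 2 k := by
    by_contra h
    have h2 : Nat.clog 2 k = 0 := by omega
    have h3 := Nat.le_pow_clog (b := 2) (by norm_num) k
    rw [h2] at h3
    omega
  obtain ⟨t, ht⟩ : ∃ t, Nat.clog 2 k = t + 1 := ⟨Nat.clog 2 k - 1, by omega⟩
  rw [ht] at h1 ⊢
  have h2 : ((2 : ℝ)) ^ t < k := by exact_mod_cast h1
  have h3 : (t : ℝ) * Real.log 2 < Real.log k := by
    rw [← Real.log_pow]
    exact Real.log_lt_log (by positivity) h2
  have h4 := Real.log_two_gt_d9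
  have h5 : (t : ℝ) ≤ 2 * Real.log k := by nlinarith [(Nat.cast_nonneg t : (0 : ℝ) ≤ t)]
  push_cast
  linarith

theorem eventually_upper (r d : ℕ) (hr : 1 ≤ r) (hd : 2 ≤ d) :
    ∀ᶠ k : ℕ in atTop, ∀ m : ℕ,
      ((1 + d ^ 2 * r ^ d) * 3 ^ (d - 1) : ℝ) * Real.log k ^ (d - 1) ≤ m → Arrow r d m k := by
  filter_upwards [eventually_log_ge 1, eventually_gt_atTop 1] with k hL hk m hm
  have ht := clog_le hk hL
  obtain ⟨t, ht'⟩ : ∃ t, t = Nat.clog 2 k := ⟨_, rfl⟩
  rw [← ht'] at ht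
  have hkt : k ≤ 2 ^ t := by rw [ht']; exact Nat.le_pow_clog (by norm_num) k
  have ht1 : 1 ≤ t := by
    by_contra h
    have h0 : t = 0 := by omega
    rw [h0] at hkt
    omega
  refine (arrow_upper r d m t ?_).mono hkt
  obtain ⟨e, rfl⟩ : ∃ e, d = e + 1 := ⟨d - 1, by omega⟩
  rw [Nat.add_sub_cancel] at hm
  have he : 1 ≤ e := by omega
  have h1 : ∑ j ∈ range (e + 1), (r * t).choose j ≤ (e + 1) * (r * t) ^ e := by
    calc ∑ j ∈ range (e + 1), (r * t).choose j ≤ ∑ _j ∈ range (e + 1), (r * t) ^ e := by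
          refine Finset.sum_le_sum fun j hj => ?_
          rw [Finset.mem_range] at hj
          refine (Nat.choose_le_pow _ _).trans (Nat.pow_le_pow_right ?_ (by omega))
          exact Nat.mul_pos (by omega) (by omega)
      _ = (e + 1) * (r * t) ^ e := by rw [Finset.sum_const, Finset.card_range, smul_eq_mul]
  have h2 : t + (e + 1) * (r * ∑ j ∈ range (e + 1), (r * t).choose j) ≤
      (1 + (e + 1) ^ 2 * r ^ (e + 1)) * t ^ e := by
    have h3 : t ≤ t ^ e := by
      calc t = t ^ 1 := (pow_one t).symm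
        _ ≤ t ^ e := Nat.pow_le_pow_right (by omega) he
    calc t + (e + 1) * (r * ∑ j ∈ range (e + 1), (r * t).choose j)
        ≤ t ^ e + (e + 1) * (r * ((e + 1) * (r * t) ^ e)) :=
          Nat.add_le_add h3 (Nat.mul_le_mul_left _ (Nat.mul_le_mul_left _ h1))
      _ = (1 + (e + 1) ^ 2 * r ^ (e + 1)) * t ^ e := by rw [mul_pow]; ring
  refine h2.trans ?_
  have h4 : (((1 + (e + 1) ^ 2 * r ^ (e + 1)) * t ^ e : ℕ) : ℝ) ≤ m := by
    refine le_trans ?_ hm
    push_cast
    have h5 : (t : ℝ) ^ e ≤ (3 * Real.log k) ^ e :=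
      pow_le_pow_left₀ (Nat.cast_nonneg t) ht e
    rw [mul_pow] at h5
    calc (1 + ((e : ℝ) + 1) ^ 2 * (r : ℝ) ^ (e + 1)) * (t : ℝ) ^ e
        ≤ (1 + ((e : ℝ) + 1) ^ 2 * (r : ℝ) ^ (e + 1)) * (3 ^ e * Real.log k ^ e) :=
          mul_le_mul_of_nonneg_left h5 (by positivity)
      _ = (1 + ((e : ℝ) + 1) ^ 2 * (r : ℝ) ^ (e + 1)) * 3 ^ e * Real.log k ^ e := by ring
  exact_mod_cast h4

theorem eventually_lower (r d : ℕ) (hr : 2 ≤ r) (hd : 1 ≤ d) :
    ∀ᶠ k : ℕ in atTop, ∀ m : ℕ,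
      (m : ℝ) ≤ 1 / (16 * 2 ^ (d - 1) * (d - 1).factorial) * Real.log k ^ (d - 1) →
        ¬ Arrow r d m k := by
  filter_upwards [eventually_log_ge (20 + r + 2 * d), eventually_gt_atTop 1] with k hL hk m hm
  obtain ⟨e, rfl⟩ : ∃ e, d = e + 1 := ⟨d - 1, by omega⟩
  rw [Nat.add_sub_cancel] at hm
  push_cast at hL
  have hk0 : k ≠ 0 := by omega
  have h1 := Nat.lt_pow_succ_log_self (b := 2) (by norm_num) k
  have h2 := Nat.pow_log_le_self 2 hk0
  obtain ⟨s, hs⟩ : ∃ s, s = Nat.log 2 k := ⟨_, rfl⟩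
  rw [← hs] at h1 h2
  have h3 : Real.log k < (s + 1) * Real.log 2 := by
    have h4 : (k : ℝ) < 2 ^ (s + 1) := by exact_mod_cast h1
    have h5 := Real.log_lt_log (by positivity) h4
    rw [Real.log_pow] at h5
    push_cast at h5
    exact h5
  have h6 := Real.log_two_lt_d9
  have hs0 : (0 : ℝ) ≤ s := Nat.cast_nonneg s
  have hr0 : (0 : ℝ) ≤ r := Nat.cast_nonneg r
  have he0 : (0 : ℝ) ≤ e := Nat.cast_nonneg e
  have h7 : Real.log k + 7 ≤ s := by nlinarith
  obtain ⟨t, ht⟩ : ∃ t, s = t + 7 := ⟨s - 7, by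
    have : (7 : ℝ) ≤ s := by linarith
    have : 7 ≤ s := by exact_mod_cast this
    omega⟩
  have htL : Real.log k ≤ t := by rw [ht] at h7; push_cast at h7; linarith
  have htr : r + 2 * (e + 1) ≤ t := by
    have : ((r + 2 * (e + 1) : ℕ) : ℝ) ≤ t := by push_cast; linarith
    exact_mod_cast this
  apply arrow_lower r (e + 1) m t k hr hd
  · have h8 : ((16 * m : ℕ) : ℝ) ≤ (t.choose e : ℝ) := by
      have h9 := Nat.pow_le_choose (α := ℝ) e t
      refine le_trans ?_ h9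
      have h10 : (t : ℝ) / 2 ≤ ((t + 1 - e : ℕ) : ℝ) := by
        rw [Nat.cast_sub (by omega)]
        push_cast
        have : ((2 * (e + 1) : ℕ) : ℝ) ≤ t := by exact_mod_cast (by omega : 2 * (e + 1) ≤ t)
        push_cast at this
        linarith
      have h11 : (Real.log k / 2) ^ e ≤ ((t + 1 - e : ℕ) : ℝ) ^ e :=
        pow_le_pow_left₀ (by linarith) (by linarith) e
      rw [le_div_iff₀ (by positivity)]
      refine le_trans ?_ h11
      push_cast
      have hfac : (0 : ℝ) < (e.factorial : ℝ) := by positivity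
      calc (16 * (m : ℝ)) * e.factorial
          ≤ 16 * (1 / (16 * 2 ^ e * e.factorial) * Real.log k ^ e) * e.factorial := by
            apply mul_le_mul_of_nonneg_right _ hfac.le
            exact mul_le_mul_of_nonneg_left hm (by norm_num)
        _ = (Real.log k / 2) ^ e := by
            rw [div_pow]
            field_simp
    have h12 : 16 * m ≤ t.choose e := by exact_mod_cast h8
    refine h12.trans ?_
    exact Finset.single_le_sum (f := fun j => t.choose j) (fun _ _ => Nat.zero_le _)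
      (Finset.mem_range.2 (Nat.lt_succ_self e))
  · have h13 : r ≤ 2 ^ t := (by omega : r ≤ t).trans (Nat.lt_two_pow_self).le
    have h14 : 2 ^ (t + 7) = 128 * 2 ^ t := by rw [pow_add]; ring
    rw [ht, h14] at h2
    omega

/-- degree at least `log₂ k` is enough for exponential growth -/
theorem eventually_lower_exp (r : ℕ) (hr : 2 ≤ r) :
    ∀ᶠ k : ℕ in atTop, ∀ d m : ℕ, Nat.log 2 k ≤ d → 2000 * m ≤ k → ¬ Arrow r d m k := by
  filter_upwards [eventually_ge_atTop (49 * (r + 100))] with k hk d m hd hm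
  obtain ⟨q, hq⟩ : ∃ q, q = k / 49 := ⟨_, rfl⟩
  have hq1 : r + 100 ≤ q := by omega
  have hq0 : q ≠ 0 := by omega
  have h1 := Nat.lt_pow_succ_log_self (b := 2) (by norm_num) q
  have h2 := Nat.pow_log_le_self 2 hq0
  obtain ⟨t, ht⟩ : ∃ t, t = Nat.log 2 q := ⟨_, rfl⟩
  rw [← ht] at h1 h2
  have h3 : 2 ^ (t + 1) = 2 * 2 ^ t := by rw [pow_succ]; ring
  have hd' : t + 1 ≤ d := by
    refine le_trans ?_ hd
    have h4 : 2 ^ (t + 1) ≤ k := by omega
    exact Nat.le_log_of_pow_le (by norm_num) h4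
  apply arrow_lower r d m t k hr (by omega)
  · have h5 : ∑ j ∈ range (t + 1), t.choose j ≤ ∑ j ∈ range d, t.choose j :=
      Finset.sum_le_sum_of_subset (Finset.range_mono hd')
    rw [Nat.sum_range_choose] at h5
    refine le_trans ?_ h5
    have h6 : q < 2 * 2 ^ t := by rw [← h3]; exact h1
    omega
  · omega

theorem sum_choose_le (n d : ℕ) (x : ℝ) (hx : 0 < x) (hx1 : x ≤ 1) :
    ((∑ j ∈ range d, n.choose j : ℕ) : ℝ) ≤ (1 + x) ^ n * (1 / x) ^ d := by
  have h1 : ((∑ j ∈ range d, n.choose j : ℕ) : ℝ) * x ^ d ≤ (1 + x) ^ n := by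
    rw [add_comm, add_pow]
    push_cast
    rw [Finset.sum_mul]
    have h2 : ∀ j ∈ range d, (n.choose j : ℝ) * x ^ d ≤ x ^ j * 1 ^ (n - j) * (n.choose j : ℝ) := by
      intro j hj
      rw [Finset.mem_range] at hj
      rw [one_pow, mul_one, mul_comm]
      exact mul_le_mul_of_nonneg_right (pow_le_pow_of_le_one hx.le hx1 hj.le) (Nat.cast_nonneg _)
    refine (Finset.sum_le_sum h2).trans ?_
    rcases Nat.le_total d (n + 1) with h | h
    · exact Finset.sum_le_sum_of_subset_of_nonneg (Finset.range_mono h)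
        (fun _ _ _ => by positivity)
    · refine le_of_eq (Finset.sum_subset (Finset.range_mono h) ?_).symm
      intro j _ hj
      rw [Finset.mem_range, not_lt] at hj
      rw [Nat.choose_eq_zero_of_lt (by omega)]
      simp
  have h3 : (0 : ℝ) < x ^ d := by positivity
  rw [one_div, inv_pow, ← div_eq_mul_inv, le_div_iff₀ h3]
  exact h1

/-- Degree at most `δ log k`: subexponential growth, `log₂ N ≤ k ^ ε`. -/
theorem eventually_upper_small (r : ℕ) (hr : 1 ≤ r) (ε : ℝ) (hε : 0 < ε) :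
    ∃ δ : ℝ, 0 < δ ∧ ∀ᶠ k : ℕ in atTop, ∀ d m : ℕ,
      (d : ℝ) ≤ δ * Real.log k → (k : ℝ) ^ ε ≤ m → Arrow r d m k := by
  have hr' : (1 : ℝ) ≤ r := by exact_mod_cast hr
  obtain ⟨x, hx⟩ : ∃ x : ℝ, x = min 1 (ε / (12 * r)) := ⟨_, rfl⟩
  have hx0 : 0 < x := by rw [hx]; exact lt_min one_pos (by positivity)
  have hx1 : x ≤ 1 := by rw [hx]; exact min_le_left _ _
  have hxr : 12 * r * x ≤ ε := by
    have h1 : x ≤ ε / (12 * r) := by rw [hx]; exact min_le_right _ _
    rw [le_div_iff₀ (by positivity)] at h1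
    linarith
  obtain ⟨y, hy⟩ : ∃ y : ℝ, y = Real.log (1 / x) := ⟨_, rfl⟩
  have hy0 : 0 ≤ y := by
    rw [hy]
    apply Real.log_nonneg
    rw [one_div]
    exact (one_le_inv₀ hx0).2 hx1
  obtain ⟨δ, hδ⟩ : ∃ δ : ℝ, δ = ε / (4 * (y + 1)) := ⟨_, rfl⟩
  have hδ0 : 0 < δ := by rw [hδ]; positivity
  have hδy : δ * y ≤ ε / 4 := by
    rw [hδ, div_mul_eq_mul_div, div_le_div_iff₀ (by positivity) (by norm_num)]
    nlinarith
  refine ⟨δ, hδ0, ?_⟩
  filter_upwards [eventually_log_ge 1, eventually_log_ge (8 * (3 + δ * r) / ε ^ 2),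
    eventually_gt_atTop 1] with k hL hL2 hk d m hd hm
  obtain ⟨L, hLdef⟩ : ∃ L : ℝ, L = Real.log k := ⟨_, rfl⟩
  rw [← hLdef] at hL hL2 hd
  have ht := clog_le hk (by rw [← hLdef]; exact hL)
  rw [← hLdef] at ht
  obtain ⟨t, ht'⟩ : ∃ t, t = Nat.clog 2 k := ⟨_, rfl⟩
  rw [← ht'] at ht
  have hkt : k ≤ 2 ^ t := by rw [ht']; exact Nat.le_pow_clog (by norm_num) k
  refine (arrow_upper r d m t ?_).mono hkt
  have hk0 : (0 : ℝ) < k := by exact_mod_cast (by omega : 0 < k)
  have h1 := sum_choose_le (r * t) d x hx0 hx1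
  have h2 : (1 + x) ^ (r * t) ≤ Real.exp (ε * L / 4) := by
    calc (1 + x) ^ (r * t) ≤ (Real.exp x) ^ (r * t) := by
          apply pow_le_pow_left₀ (by positivity)
          rw [add_comm]; exact Real.add_one_le_exp x
      _ = Real.exp ((r * t : ℕ) * x) := by rw [← Real.exp_nat_mul]
      _ ≤ Real.exp (ε * L / 4) := by
          apply Real.exp_le_exp.2
          push_cast
          have h3 : (r : ℝ) * t * x ≤ r * (3 * L) * x := by
            apply mul_le_mul_of_nonneg_right _ hx0.le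
            exact mul_le_mul_of_nonneg_left ht (by positivity)
          have h4 : 12 * r * x * L ≤ ε * L := mul_le_mul_of_nonneg_right hxr (by linarith)
          linarith
  have h5 : (1 / x) ^ d ≤ Real.exp (ε * L / 4) := by
    have h6 : (1 / x) ^ d = Real.exp (d * y) := by
      rw [hy, Real.exp_nat_mul, Real.exp_log (by positivity)]
    rw [h6]
    apply Real.exp_le_exp.2
    calc (d : ℝ) * y ≤ δ * L * y := mul_le_mul_of_nonneg_right hd hy0
      _ = (δ * y) * L := by ring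
      _ ≤ (ε / 4) * L := mul_le_mul_of_nonneg_right hδy (by linarith)
      _ = ε * L / 4 := by ring
  have h7 : ((∑ j ∈ range d, (r * t).choose j : ℕ) : ℝ) ≤ Real.exp (ε * L / 2) := by
    refine h1.trans ?_
    have h8 : Real.exp (ε * L / 2) = Real.exp (ε * L / 4) * Real.exp (ε * L / 4) := by
      rw [← Real.exp_add]; congr 1; ring
    rw [h8]
    exact mul_le_mul h2 h5 (by positivity) (Real.exp_pos _).le
  have h9 : (k : ℝ) ^ ε = Real.exp (ε * L / 2) * Real.exp (ε * L / 2) := by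
    rw [Real.rpow_def_of_pos hk0, ← Real.exp_add, ← hLdef]
    congr 1; ring
  have h10 : (3 + δ * r) * L ≤ Real.exp (ε * L / 2) := by
    have h11 := Real.quadratic_le_exp_of_nonneg (by positivity : 0 ≤ ε * L / 2)
    have h12 : (3 + δ * r) * L ≤ (ε * L / 2) ^ 2 / 2 := by
      rw [div_le_iff₀ (by positivity)] at hL2
      have h13 : 8 * (3 + δ * r) * L ≤ L * ε ^ 2 * L := mul_le_mul_of_nonneg_right hL2 (by linarith)
      nlinarith
    have h14 : 0 ≤ ε * L / 2 := by positivity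
    linarith
  have h15 : ((t + d * (r * ∑ j ∈ range d, (r * t).choose j) : ℕ) : ℝ) ≤ m := by
    refine le_trans ?_ hm
    rw [Nat.cast_add, Nat.cast_mul, Nat.cast_mul, h9]
    have h16 : (1 : ℝ) ≤ Real.exp (ε * L / 2) := Real.one_le_exp (by positivity)
    have h17 : (d : ℝ) * (r * ((∑ j ∈ range d, (r * t).choose j : ℕ) : ℝ)) ≤
        (δ * L) * (r * Real.exp (ε * L / 2)) := by
      apply mul_le_mul hd _ (by positivity) (by positivity)
      exact mul_le_mul_of_nonneg_left h7 (by positivity)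
    have h18 : 3 * L ≤ 3 * L * Real.exp (ε * L / 2) := le_mul_of_one_le_right (by positivity) h16
    calc (t : ℝ) + (d : ℝ) * (r * ((∑ j ∈ range d, (r * t).choose j : ℕ) : ℝ))
        ≤ 3 * L * Real.exp (ε * L / 2) + (δ * L) * (r * Real.exp (ε * L / 2)) := by linarith
      _ = ((3 + δ * r) * L) * Real.exp (ε * L / 2) := by ring
      _ ≤ Real.exp (ε * L / 2) * Real.exp (ε * L / 2) :=
          mul_le_mul_of_nonneg_right h10 (Real.exp_pos _).le
  exact_mod_cast h15

end Q119.LD
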