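import Pool.Agent.Q119.LD.Interp
set_option autoImplicit false

/-!
# Counting colourings of low degree
-/

namespace Q119.LD

open MvPolynomial Finset

/-- functions of two variables in `F_2 ^ m` given by polynomials of degree at most `d` -/
def IsPol2 (m d : ℕ) (F : V m → V m → ZMod 2) : Prop :=
  ∃ P : MvPolynomial (Fin 2 × Fin m) (ZMod 2), P.totalDegree ≤ d ∧
    ∀ u v, eval (fun z => if z.1 = 0 then u z.2 else v z.2) P = F u v

theorem IsPol2.add {m d : ℕ} {F G : V m → V m → ZMod 2} (hF : IsPol2 m d F) (hG : IsPol2 m d G) :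
    IsPol2 m d (fun u v => F u v + G u v) := by
  obtain ⟨P, hP, hP2⟩ := hF
  obtain ⟨Q, hQ, hQ2⟩ := hG
  exact ⟨P + Q, (totalDegree_add _ _).trans (max_le hP hQ), fun u v => by rw [map_add, hP2, hQ2]⟩

theorem IsPol2.zero (m d : ℕ) : IsPol2 m d (fun _ _ => 0) :=
  ⟨0, by simp, fun u v => by simp⟩

theorem IsPol2.sum {m d : ℕ} {ι : Type} (s : Finset ι) (F : ι → V m → V m → ZMod 2)
    (hF : ∀ i ∈ s, IsPol2 m d (F i)) : IsPol2 m d (fun u v => ∑ i ∈ s, F i u v) := by
  classical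
  induction s using Finset.induction_on with
  | empty => simpa using IsPol2.zero m d
  | insert a s ha ih =>
    have h1 := (hF a (Finset.mem_insert_self _ _)).add
      (ih fun i hi => hF i (Finset.mem_insert_of_mem hi))
    have h2 : (fun u v => ∑ i ∈ insert a s, F i u v) = fun u v => F a u v + ∑ i ∈ s, F i u v := by
      funext u v
      rw [Finset.sum_insert ha]
    rw [h2]
    exact h1

theorem IsPol2.prod {m e e' d : ℕ} (hd : e + e' ≤ d) {p q : V m → ZMod 2} (hp : IsPol m e p)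
    (hq : IsPol m e' q) : IsPol2 m d (fun u v => p u * q v) := by
  obtain ⟨P, hP, hP2⟩ := hp
  obtain ⟨Q, hQ, hQ2⟩ := hq
  refine ⟨rename (fun j => ((0 : Fin 2), j)) P * rename (fun j => ((1 : Fin 2), j)) Q, ?_, ?_⟩
  · refine (totalDegree_mul _ _).trans (le_trans (Nat.add_le_add ?_ ?_) hd)
    · exact (totalDegree_rename_le _ _).trans hP
    · exact (totalDegree_rename_le _ _).trans hQ
  · intro u v
    beta_reduce
    rw [map_mul, eval_rename, eval_rename, ← hP2, ← hQ2]
    rfl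

/-- every assignment of values at the pairs `p i` is the restriction of a polynomial -/
def Full (m d : ℕ) {ι : Type} (p : ι → V m × V m) : Prop :=
  ∀ g : ι → ZMod 2, ∃ F, IsPol2 m d F ∧ ∀ i, F (p i).1 (p i).2 = g i

/-- the set of all functions given by polynomials -/
noncomputable def W (m d : ℕ) : Finset (V m → V m → ZMod 2) := by
  classical exact univ.filter (fun F => IsPol2 m d F)

theorem mem_W {m d : ℕ} {F : V m → V m → ZMod 2} : F ∈ W m d ↔ IsPol2 m d F := by
  classical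
  simp [W]

theorem W_pos (m d : ℕ) : 0 < (W m d).card :=
  Finset.card_pos.2 ⟨fun _ _ => 0, mem_W.2 (IsPol2.zero m d)⟩

theorem card_fibre {m d : ℕ} {ι : Type} [Fintype ι] (p : ι → V m × V m) (hp : Full m d p)
    (c : ZMod 2) [DecidablePred fun F : V m → V m → ZMod 2 => ∀ i, F (p i).1 (p i).2 = c] :
    ((W m d).filter (fun F => ∀ i, F (p i).1 (p i).2 = c)).card * 2 ^ Fintype.card ι ≤
      (W m d).card := by
  classical
  choose s hs1 hs2 using hp
  have h1 : (((W m d).filter (fun F => ∀ i, F (p i).1 (p i).2 = c)) ×ˢ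
      (univ : Finset (ι → ZMod 2))).card ≤ (W m d).card := by
    refine Finset.card_le_card_of_injOn
      (fun x : (V m → V m → ZMod 2) × (ι → ZMod 2) => fun u v => x.1 u v + s x.2 u v) ?_ ?_
    · intro x hx
      rw [Finset.mem_coe, Finset.mem_product, Finset.mem_filter] at hx
      exact mem_W.2 ((mem_W.1 hx.1.1).add (hs1 _))
    · intro x hx y hy hxy
      rw [Finset.mem_coe, Finset.mem_product, Finset.mem_filter] at hx hy
      have h2 : x.2 = y.2 := by
        funext i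
        have h3 := congrFun (congrFun hxy (p i).1) (p i).2
        simp only [hx.1.2 i, hy.1.2 i, hs2] at h3
        exact add_left_cancel h3
      have h4 : x.1 = y.1 := by
        funext u v
        have h3 := congrFun (congrFun hxy u) v
        simp only [h2] at h3
        exact add_right_cancel h3
      exact Prod.ext h4 h2
  rw [Finset.card_product, Finset.card_univ, Fintype.card_fun, ZMod.card] at h1
  exact h1

/-- the union bound -/
theorem card_union {m d : ℕ} {ι τ : Type} [Fintype ι] [Fintype τ] (p : τ → ι → V m × V m)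
    (c : ZMod 2)
    [DecidablePred fun F : V m → V m → ZMod 2 =>
      ∃ σ, Full m d (p σ) ∧ ∀ i, F (p σ i).1 (p σ i).2 = c] :
    ((W m d).filter (fun F => ∃ σ, Full m d (p σ) ∧ ∀ i, F (p σ i).1 (p σ i).2 = c)).card *
      2 ^ Fintype.card ι ≤ Fintype.card τ * (W m d).card := by
  classical
  have h1 : (W m d).filter (fun F => ∃ σ, Full m d (p σ) ∧ ∀ i, F (p σ i).1 (p σ i).2 = c) ⊆
      (univ.filter (fun σ : τ => Full m d (p σ))).biUnion
        (fun σ => (W m d).filter (fun F => ∀ i, F (p σ i).1 (p σ i).2 = c)) := by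
    intro F hF
    rw [Finset.mem_filter] at hF
    obtain ⟨hF1, σ, hσ, hF2⟩ := hF
    rw [Finset.mem_biUnion]
    exact ⟨σ, Finset.mem_filter.2 ⟨mem_univ _, hσ⟩, Finset.mem_filter.2 ⟨hF1, hF2⟩⟩
  calc _ ≤ (∑ σ ∈ univ.filter (fun σ : τ => Full m d (p σ)),
        ((W m d).filter (fun F => ∀ i, F (p σ i).1 (p σ i).2 = c)).card) * 2 ^ Fintype.card ι :=
        Nat.mul_le_mul_right _ ((Finset.card_le_card h1).trans Finset.card_biUnion_le)
    _ = ∑ σ ∈ univ.filter (fun σ : τ => Full m d (p σ)),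
        ((W m d).filter (fun F => ∀ i, F (p σ i).1 (p σ i).2 = c)).card * 2 ^ Fintype.card ι := by
        rw [Finset.sum_mul]
    _ ≤ ∑ _σ ∈ univ.filter (fun σ : τ => Full m d (p σ)), (W m d).card :=
        Finset.sum_le_sum fun σ hσ => card_fibre _ (Finset.mem_filter.1 hσ).2 c
    _ ≤ Fintype.card τ * (W m d).card := by
        rw [Finset.sum_const, smul_eq_mul]
        exact Nat.mul_le_mul_right _ (Finset.card_le_univ _)

/-! ### Full families of pairs -/

theorem full_right {m d e ρ a : ℕ} (hd : e + 1 ≤ d) (x : Fin ρ → V m)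
    (hx : ∀ g : Fin ρ → ZMod 2, ∃ q, IsPol m e q ∧ ∀ i, q (x i) = g i)
    (y : Fin a → V m) (hy : LinearIndependent (ZMod 2) y) :
    Full m d (fun il : Fin ρ × Fin a => (x il.1, y il.2)) := by
  classical
  intro g
  obtain ⟨ζ, hζ1, hζ2⟩ := exists_dual y hy
  have hq : ∀ l : Fin a, ∃ q, IsPol m e q ∧ ∀ i, q (x i) = g (i, l) := fun l => hx _
  choose q hq1 hq2 using hq
  refine ⟨fun u v => ∑ l, q l u * ζ l v, IsPol2.sum _ _ fun l _ =>
    IsPol2.prod hd (hq1 l) (hζ1 l), ?_⟩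
  rintro ⟨i, l⟩
  simp only [hq2, hζ2]
  rw [Finset.sum_eq_single l]
  · simp
  · intro l' _ hl
    rw [if_neg hl, mul_zero]
  · intro h; exact absurd (mem_univ _) h

theorem full_left {m d e ρ a : ℕ} (hd : e + 1 ≤ d) (x : Fin ρ → V m)
    (hx : ∀ g : Fin ρ → ZMod 2, ∃ q, IsPol m e q ∧ ∀ i, q (x i) = g i)
    (y : Fin a → V m) (hy : LinearIndependent (ZMod 2) y) :
    Full m d (fun il : Fin ρ × Fin a => (y il.2, x il.1)) := by
  classical
  intro g
  obtain ⟨ζ, hζ1, hζ2⟩ := exists_dual y hy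
  have hq : ∀ l : Fin a, ∃ q, IsPol m e q ∧ ∀ i, q (x i) = g (i, l) := fun l => hx _
  choose q hq1 hq2 using hq
  refine ⟨fun u v => ∑ l, ζ l u * q l v, IsPol2.sum _ _ fun l _ =>
    IsPol2.prod (by omega) (hζ1 l) (hq1 l), ?_⟩
  rintro ⟨i, l⟩
  simp only [hq2, hζ2]
  rw [Finset.sum_eq_single l]
  · simp
  · intro l' _ hl
    rw [if_neg hl, zero_mul]
  · intro h; exact absurd (mem_univ _) h

theorem full_mid {m d e ρ b : ℕ} (hd : e + 1 ≤ d) (x z : Fin b → V m)
    (hx : LinearIndependent (ZMod 2) x) (hz : LinearIndependent (ZMod 2) z) (y : Fin ρ → V m)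
    (hy : ∀ g : Fin ρ → ZMod 2, ∃ q, IsPol m e q ∧ (∀ j, q (y j) = g j) ∧ ∀ l, q (z l) = 0) :
    Full m d (Sum.elim (fun ji : Fin ρ × Fin b => (x ji.2, y ji.1))
      (fun jl : Fin ρ × Fin b => (y jl.1, z jl.2))) := by
  classical
  intro g
  obtain ⟨ξ, hξ1, hξ2⟩ := exists_dual x hx
  obtain ⟨ζ, hζ1, hζ2⟩ := exists_dual z hz
  have hq' : ∀ l : Fin b, ∃ q, IsPol m e q ∧ (∀ j, q (y j) = g (Sum.inr (j, l))) ∧
    ∀ l, q (z l) = 0 := fun l => hy _
  choose q' hq'1 hq'2 hq'3 using hq'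
  have hq : ∀ i : Fin b, ∃ q, IsPol m e q ∧
      (∀ j, q (y j) = g (Sum.inl (j, i)) - ∑ l, q' l (x i) * ζ l (y j)) ∧ ∀ l, q (z l) = 0 :=
    fun i => hy _
  choose q hq1 hq2 hq3 using hq
  refine ⟨fun u v => (∑ i, ξ i u * q i v) + ∑ l, q' l u * ζ l v,
    (IsPol2.sum _ _ fun i _ => IsPol2.prod (by omega) (hξ1 i) (hq1 i)).add
    (IsPol2.sum _ _ fun l _ => IsPol2.prod hd (hq'1 l) (hζ1 l)), ?_⟩
  rintro (⟨j, i⟩ | ⟨j, l⟩)
  · simp only [Sum.elim_inl, hξ2]
    rw [Finset.sum_eq_single i]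
    · rw [if_pos rfl, one_mul, hq2]
      ring
    · intro i' _ hi
      rw [if_neg hi, zero_mul]
    · intro h; exact absurd (mem_univ _) h
  · simp only [Sum.elim_inr, hq3, mul_zero, Finset.sum_const_zero, zero_add, hζ2, hq'2]
    rw [Finset.sum_eq_single l]
    · simp
    · intro i' _ hi
      rw [if_neg hi, mul_zero]
    · intro h; exact absurd (mem_univ _) h

end Q119.LD
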