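import Pool.Agent.H161R3.Upper
set_option autoImplicit false

/-!
# Colourings of algebraic degree `d` over `F_2`: upper bound
-/

namespace Q119.LD

open MvPolynomial Finset

/-- the indicator point of a finite set -/
def ind {σ : Type} [DecidableEq σ] (T : Finset σ) : σ → ZMod 2 := fun i => if i ∈ T then 1 else 0

theorem eval_ind_monomial {σ : Type} [Fintype σ] [DecidableEq σ] (S : Finset σ) (μ : σ →₀ ℕ)
    (c : ZMod 2) : eval (ind S) (monomial μ c) = if μ.support ⊆ S then c else 0 := by
  rw [eval_monomial, Finsupp.prod]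
  split_ifs with h
  · rw [Finset.prod_eq_one, mul_one]
    intro i hi
    simp [ind, h hi]
  · obtain ⟨i, hi, hiS⟩ := Finset.not_subset.1 h
    rw [Finset.prod_eq_zero hi, mul_zero]
    rw [ind, if_neg hiS, zero_pow]
    exact Finsupp.mem_support_iff.1 hi

theorem card_support_le_degree {σ : Type} (μ : σ →₀ ℕ) : μ.support.card ≤ μ.sum fun _ e => e := by
  rw [Finsupp.sum, Finset.card_eq_sum_ones]
  refine Finset.sum_le_sum fun i hi => ?_
  have := Finsupp.mem_support_iff.1 hi
  omega

theorem sum_powerset_eval {σ : Type} [Fintype σ] [DecidableEq σ] (d : ℕ)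
    (Q : MvPolynomial σ (ZMod 2)) (hQ : Q.totalDegree ≤ d) (T : Finset σ) (hT : d < T.card) :
    ∑ S ∈ T.powerset, eval (ind S) Q = 0 := by
  have h1 : ∀ S : Finset σ, eval (ind S) Q =
      ∑ μ ∈ Q.support, if μ.support ⊆ S then Q.coeff μ else 0 := by
    intro S
    conv_lhs => rw [Q.as_sum, map_sum]
    refine Finset.sum_congr rfl fun μ _ => ?_
    rw [eval_ind_monomial]
  simp_rw [h1]
  rw [Finset.sum_comm]
  refine Finset.sum_eq_zero fun μ hμ => ?_
  rw [← Finset.sum_filter, Finset.sum_const]
  have hcard : μ.support.card < T.card :=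
    lt_of_le_of_lt ((card_support_le_degree μ).trans ((le_totalDegree hμ).trans hQ)) hT
  by_cases hsub : μ.support ⊆ T
  · have h2 : T.powerset.filter (fun S => μ.support ⊆ S) = Finset.Icc μ.support T := by
      ext S
      rw [Finset.mem_filter, Finset.mem_powerset, Finset.mem_Icc]
      exact ⟨fun h => ⟨h.2, h.1⟩, fun h => ⟨h.2, h.1⟩⟩
    rw [h2, Finset.card_Icc_finset hsub]
    obtain ⟨n, hn⟩ : ∃ n, T.card - μ.support.card = n + 1 := ⟨T.card - μ.support.card - 1, by omega⟩
    rw [hn, pow_succ, nsmul_eq_mul]
    push_cast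
    have : (2 : ZMod 2) = 0 := by decide
    rw [this, mul_zero, zero_mul]
  · have h2 : T.powerset.filter (fun S => μ.support ⊆ S) = ∅ := by
      rw [Finset.filter_eq_empty_iff]
      intro S hS h
      exact hsub (h.trans (Finset.mem_powerset.1 hS))
    rw [h2]
    simp

/-- A polynomial of degree at most `d` that vanishes at the `0/1` points of weight at most `d`
vanishes at all `0/1` points. -/
theorem eval_ind_eq_zero {σ : Type} [Fintype σ] [DecidableEq σ] (d : ℕ)
    (Q : MvPolynomial σ (ZMod 2)) (hQ : Q.totalDegree ≤ d)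
    (h : ∀ T : Finset σ, T.card ≤ d → eval (ind T) Q = 0) (T : Finset σ) :
    eval (ind T) Q = 0 := by
  induction T using Finset.strongInduction with
  | _ T ih =>
    rcases Nat.lt_or_ge d T.card with hlt | hge
    · have h1 := sum_powerset_eval d Q hQ T hlt
      rw [← Finset.add_sum_erase _ _ (Finset.mem_powerset_self T)] at h1
      rw [Finset.sum_eq_zero, add_zero] at h1
      · exact h1
      · intro S hS
        rw [Finset.mem_erase, Finset.mem_powerset] at hS
        exact ih S (Finset.ssubset_iff_subset_ne.2 ⟨hS.2, hS.1⟩)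
    · exact h T hge

/-- the digits of `r` linear combinations of `u 0, …, u (t - 1)` -/
def comb {r m t : ℕ} (u : Fin t → Fin m → ZMod 2) (T : Finset (Fin r × Fin t)) :
    Fin r × Fin m → ZMod 2 :=
  fun z => ∑ l : Fin t, if (z.1, l) ∈ T then u l z.2 else 0

/-- number of subsets with less than `d` elements -/
theorem card_small (α : Type) [Fintype α] [DecidableEq α] (d : ℕ) :
    (univ.filter (fun T : Finset α => T.card < d)).card = ∑ j ∈ range d, (Fintype.card α).choose j := by
  have h : univ.filter (fun T : Finset α => T.card < d) =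
      (range d).biUnion (fun j => (univ : Finset α).powersetCard j) := by
    ext T
    simp [Finset.mem_powersetCard]
  rw [h, Finset.card_biUnion]
  · refine Finset.sum_congr rfl fun j _ => ?_
    rw [Finset.card_powersetCard, Finset.card_univ]
  · intro i _ j _ hij
    rw [Function.onFun, Finset.disjoint_left]
    intro T h1 h2
    rw [Finset.mem_powersetCard] at h1 h2
    exact hij (h1.2.symm.trans h2.2)

/-- number of conditions of one step -/
theorem card_cond (r t d : ℕ) :
    (univ.filter (fun T : Finset (Fin r × Fin (t + 1)) =>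
      T.card ≤ d ∧ ∃ i, (i, Fin.last t) ∈ T)).card ≤ r * ∑ j ∈ range d, (r * (t + 1)).choose j := by
  classical
  have h0 : ∑ j ∈ range d, (r * (t + 1)).choose j =
      (univ.filter (fun T : Finset (Fin r × Fin (t + 1)) => T.card < d)).card := by
    rw [card_small]
    simp
  rw [h0]
  have h1 : univ.filter (fun T : Finset (Fin r × Fin (t + 1)) =>
      T.card ≤ d ∧ ∃ i, (i, Fin.last t) ∈ T) ⊆
      ((univ : Finset (Fin r)) ×ˢ (univ.filter
        (fun T : Finset (Fin r × Fin (t + 1)) => T.card < d))).image
        (fun x => insert (x.1, Fin.last t) x.2) := by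
    intro T hT
    rw [Finset.mem_filter] at hT
    obtain ⟨-, hTd, i, hi⟩ := hT
    rw [Finset.mem_image]
    refine ⟨(i, T.erase (i, Fin.last t)), ?_, ?_⟩
    · rw [Finset.mem_product, Finset.mem_filter]
      refine ⟨mem_univ _, mem_univ _, ?_⟩
      have := Finset.card_erase_lt_of_mem hi
      change (T.erase (i, Fin.last t)).card < d
      omega
    · exact Finset.insert_erase hi
  refine (Finset.card_le_card h1).trans (Finset.card_image_le.trans ?_)
  rw [Finset.card_product, Finset.card_univ, Fintype.card_fin]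

/-- The invariant of the construction. -/
structure Inv {r m s : ℕ} (P : Fin s → MvPolynomial (Fin r × Fin m) (ZMod 2)) (t : ℕ)
    (u : Fin t → Fin m → ZMod 2) (Q : Finset (Fin m)) : Prop where
  card : Q.card = t
  inj : ∀ b : Fin t → ZMod 2, (∀ j ∈ Q, ∑ l, b l * u l j = 0) → b = 0
  const : ∀ T : Finset (Fin r × Fin t), ∀ l, eval (comb u T) (P l) = eval 0 (P l)

theorem step {r m s d t : ℕ} (P : Fin s → MvPolynomial (Fin r × Fin m) (ZMod 2))
    (hP : ∀ l, (P l).totalDegree ≤ d) (u : Fin t → Fin m → ZMod 2) (Q : Finset (Fin m))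
    (h : Inv P t u Q)
    (hm : t + s * d * (r * ∑ j ∈ range d, (r * (t + 1)).choose j) < m) :
    ∃ (u' : Fin (t + 1) → Fin m → ZMod 2) (Q' : Finset (Fin m)), Inv P (t + 1) u' Q' := by
  classical
  let ext : ({j : Fin m // j ∉ Q} → ZMod 2) → Fin m → ZMod 2 :=
    fun y j => if h : j ∉ Q then y ⟨j, h⟩ else 0
  let U : ({j : Fin m // j ∉ Q} → ZMod 2) → Fin (t + 1) → Fin m → ZMod 2 :=
    fun y => Fin.snoc (α := fun _ => Fin m → ZMod 2) u (ext y)
  let sub : Finset (Fin r × Fin (t + 1)) → Fin r × Fin m →
      MvPolynomial {j : Fin m // j ∉ Q} (ZMod 2) := fun T z =>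
    C (∑ l : Fin t, if (z.1, l.castSucc) ∈ T then u l z.2 else 0) +
      (if h : z.2 ∉ Q then (if (z.1, Fin.last t) ∈ T then X ⟨z.2, h⟩ else 0) else 0)
  let cond : Finset (Fin r × Fin (t + 1)) → Prop := fun T =>
    T.card ≤ d ∧ ∃ i, (i, Fin.last t) ∈ T
  let F : Fin s × Finset (Fin r × Fin (t + 1)) → MvPolynomial {j : Fin m // j ∉ Q} (ZMod 2) :=
    fun lT => if cond lT.2 then bind₁ (sub lT.2) (P lT.1) - C (eval 0 (P lT.1)) else 0
  have hsub : ∀ T z, (sub T z).totalDegree ≤ 1 := by
    intro T z
    simp only [sub]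
    refine (totalDegree_add _ _).trans ?_
    rw [totalDegree_C]
    refine max_le (Nat.zero_le _) ?_
    split_ifs
    · simp
    · simp
    · simp
  let w : Finset (Fin r × Fin (t + 1)) → ℕ := fun T => if cond T then d else 0
  have hFdeg : ∀ lT, (F lT).totalDegree ≤ w lT.2 := by
    intro lT
    simp only [F, w]
    split_ifs
    · refine (totalDegree_sub _ _).trans ?_
      rw [totalDegree_C]
      exact max_le ((Pool.Agent.H161R3.totalDegree_bind₁_le _ (hsub _) _).trans (hP _))
        (Nat.zero_le _)
    · simp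
  have hcardQ : Fintype.card {j : Fin m // j ∉ Q} = m - t := by
    rw [Fintype.card_subtype_compl, Fintype.card_fin, Fintype.card_coe, h.card]
  have hsum : (∑ lT, (F lT).totalDegree) < Fintype.card {j : Fin m // j ∉ Q} := by
    calc (∑ lT, (F lT).totalDegree)
        ≤ ∑ lT : Fin s × Finset (Fin r × Fin (t + 1)), w lT.2 :=
          Finset.sum_le_sum fun lT _ => hFdeg lT
      _ = s * ((univ.filter cond).card * d) := by
          rw [Fintype.sum_prod_type]
          simp only
          rw [Finset.sum_const, Finset.card_univ, Fintype.card_fin, smul_eq_mul]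
          congr 1
          simp only [w]
          rw [← Finset.sum_filter, Finset.sum_const, smul_eq_mul]
      _ ≤ s * ((r * ∑ j ∈ range d, (r * (t + 1)).choose j) * d) :=
          Nat.mul_le_mul_left _ (Nat.mul_le_mul_right _ (card_cond r t d))
      _ < Fintype.card {j : Fin m // j ∉ Q} := by
          rw [hcardQ]
          have : s * ((r * ∑ j ∈ range d, (r * (t + 1)).choose j) * d) =
            s * d * (r * ∑ j ∈ range d, (r * (t + 1)).choose j) := by ring
          omega
  have hdvd := char_dvd_card_solutions_of_fintype_sum_lt (K := ZMod 2) 2 hsum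
  have heval : ∀ y T l, eval y (bind₁ (sub T) (P l)) = eval (comb (U y) T) (P l) := by
    intro y T l
    have h1 := eval₂Hom_bind₁ (RingHom.id (ZMod 2)) y (sub T) (P l)
    have h2 : (fun z => (eval₂Hom (RingHom.id (ZMod 2)) y) (sub T z)) = comb (U y) T := by
      funext z
      change eval y (sub T z) = _
      simp only [sub, comb, map_add, eval_C]
      rw [Fin.sum_univ_castSucc]
      congr 1
      · refine Finset.sum_congr rfl fun l _ => ?_
        simp only [U, Fin.snoc_castSucc]
      · simp only [U, Fin.snoc_last, ext]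
        split_ifs <;> simp
    rw [h2] at h1
    exact h1
  have hext0 : ext 0 = 0 := by
    funext j
    simp [ext]
  have hcomb0 : ∀ T : Finset (Fin r × Fin (t + 1)), comb (U 0) T =
      comb u (univ.filter (fun z : Fin r × Fin t => (z.1, z.2.castSucc) ∈ T)) := by
    intro T
    funext z
    simp only [comb]
    rw [Fin.sum_univ_castSucc]
    simp only [U, Fin.snoc_castSucc, Fin.snoc_last, hext0, Pi.zero_apply, ite_self, add_zero]
    refine Finset.sum_congr rfl fun l _ => ?_
    simp
  have hzero : ∀ lT, eval 0 (F lT) = 0 := by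
    intro lT
    simp only [F]
    split_ifs with hc
    · rw [map_sub, eval_C, heval, sub_eq_zero, hcomb0]
      exact h.const _ _
    · rw [map_zero]
  have hex : ∃ y : {j : Fin m // j ∉ Q} → ZMod 2, y ≠ 0 ∧ ∀ lT, eval y (F lT) = 0 := by
    by_contra hno
    push Not at hno
    have : Fintype.card { x : {j : Fin m // j ∉ Q} → ZMod 2 // ∀ i, eval x (F i) = 0 } = 1 := by
      rw [Fintype.card_eq_one_iff]
      refine ⟨⟨0, hzero⟩, fun y => Subtype.ext ?_⟩
      by_contra hy
      obtain ⟨le, hle⟩ := hno y.1 hy
      exact hle (y.2 le)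
    rw [this] at hdvd
    have := Nat.le_of_dvd one_pos hdvd
    omega
  obtain ⟨y, hy0, hy⟩ := hex
  obtain ⟨⟨q, hq⟩, hqy⟩ := Function.ne_iff.1 hy0
  rw [Pi.zero_apply] at hqy
  refine ⟨U y, insert q Q, ?_, ?_, ?_⟩
  · rw [Finset.card_insert_of_notMem hq, h.card]
  · intro b hb
    have h1 : (fun l : Fin t => b l.castSucc) = 0 := by
      apply h.inj
      intro j hj
      have h2 := hb j (Finset.mem_insert_of_mem hj)
      rw [Fin.sum_univ_castSucc] at h2
      simp only [U, Fin.snoc_castSucc, Fin.snoc_last] at h2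
      have h3 : ext y j = 0 := by simp [ext, hj]
      rw [h3, mul_zero, add_zero] at h2
      exact h2
    have h4 : b (Fin.last t) = 0 := by
      have h2 := hb q (Finset.mem_insert_self _ _)
      rw [Fin.sum_univ_castSucc] at h2
      simp only [U, Fin.snoc_castSucc, Fin.snoc_last] at h2
      rw [Finset.sum_eq_zero, zero_add] at h2
      · have h3 : ext y q = y ⟨q, hq⟩ := by simp [ext, hq]
        rw [h3] at h2
        rcases mul_eq_zero.1 h2 with h5 | h5
        · exact h5
        · exact absurd h5 hqy
      · intro l _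
        rw [congrFun h1 l, Pi.zero_apply, zero_mul]
    funext l
    refine Fin.lastCases ?_ (fun l' => ?_) l
    · exact h4
    · exact congrFun h1 l'
  · intro T l
    -- the polynomial in the coefficients
    let sub2 : Fin r × Fin m → MvPolynomial (Fin r × Fin (t + 1)) (ZMod 2) := fun z =>
      ∑ l' : Fin (t + 1), C (U y l' z.2) * X (z.1, l')
    have hsub2 : ∀ z, (sub2 z).totalDegree ≤ 1 := by
      intro z
      refine totalDegree_finsetSum_le fun l' _ => ?_
      refine (totalDegree_mul _ _).trans ?_
      rw [totalDegree_C, totalDegree_X]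
    have hev : ∀ T', eval (ind T') (bind₁ sub2 (P l) - C (eval 0 (P l))) =
        eval (comb (U y) T') (P l) - eval 0 (P l) := by
      intro T'
      rw [map_sub, eval_C]
      congr 1
      have h1 := eval₂Hom_bind₁ (RingHom.id (ZMod 2)) (ind T') sub2 (P l)
      have h2 : (fun z => (eval₂Hom (RingHom.id (ZMod 2)) (ind T')) (sub2 z)) =
          comb (U y) T' := by
        funext z
        change eval (ind T') (sub2 z) = _
        simp only [sub2, comb, map_sum, map_mul, eval_C, eval_X]
        refine Finset.sum_congr rfl fun l' _ => ?_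
        by_cases hz : (z.1, l') ∈ T'
        · simp [ind, hz]
        · simp [ind, hz]
      rw [h2] at h1
      exact h1
    have h3 := eval_ind_eq_zero d (bind₁ sub2 (P l) - C (eval 0 (P l))) (by
      refine (totalDegree_sub _ _).trans ?_
      rw [totalDegree_C]
      exact max_le ((Pool.Agent.H161R3.totalDegree_bind₁_le _ hsub2 _).trans (hP _))
        (Nat.zero_le _)) (by
      intro T' hT'
      rw [hev, sub_eq_zero]
      by_cases hc : ∃ i, (i, Fin.last t) ∈ T'
      · have h4 := hy (l, T')
        simp only [F] at h4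
        rw [if_pos (show cond T' from ⟨hT', hc⟩), map_sub, eval_C, heval, sub_eq_zero] at h4
        exact h4
      · have h5 : comb (U y) T' = comb u (univ.filter
            (fun z : Fin r × Fin t => (z.1, z.2.castSucc) ∈ T')) := by
          funext z
          simp only [comb]
          rw [Fin.sum_univ_castSucc]
          have h6 : (z.1, Fin.last t) ∉ T' := fun h7 => hc ⟨_, h7⟩
          rw [if_neg h6, add_zero]
          refine Finset.sum_congr rfl fun l' _ => ?_
          simp only [U, Fin.snoc_castSucc, Finset.mem_filter, Finset.mem_univ, true_and]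
        rw [h5]
        exact h.const _ _) T
    rw [hev, sub_eq_zero] at h3
    exact h3

theorem chain {r m s d : ℕ} (P : Fin s → MvPolynomial (Fin r × Fin m) (ZMod 2))
    (hP : ∀ l, (P l).totalDegree ≤ d) (t : ℕ)
    (hm : t + s * d * (r * ∑ j ∈ range d, (r * t).choose j) ≤ m) :
    ∃ (u : Fin t → Fin m → ZMod 2) (Q : Finset (Fin m)), Inv P t u Q := by
  induction t with
  | zero =>
    refine ⟨fun _ _ => 0, ∅, ?_, ?_, ?_⟩
    · simp
    · intro b _
      funext l
      exact l.elim0
    · intro T l
      have h1 : comb (fun _ _ => 0) T = (0 : Fin r × Fin m → ZMod 2) := by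
        funext z
        simp [comb]
      rw [h1]
  | succ t ih =>
    have hmono : ∑ j ∈ range d, (r * t).choose j ≤ ∑ j ∈ range d, (r * (t + 1)).choose j :=
      Finset.sum_le_sum fun j _ => Nat.choose_le_choose j (Nat.mul_le_mul_left _ (by omega))
    have h1 : s * d * (r * ∑ j ∈ range d, (r * t).choose j) ≤
        s * d * (r * ∑ j ∈ range d, (r * (t + 1)).choose j) :=
      Nat.mul_le_mul_left _ (Nat.mul_le_mul_left _ hmono)
    obtain ⟨u, Q, h⟩ := ih (by omega)
    exact step P hP u Q h (by omega)

/-- Upper bound: a colouring of the `r`-subsets of `{0, …, 2 ^ m - 1}` computed by `s` polynomials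
of degree at most `d` over `F_2` has a homogeneous set of size `2 ^ t` as soon as
`t + s d r ∑_{j < d} (r t choose j) ≤ m`. -/
theorem upper (r m s d t : ℕ)
    (hm : t + s * d * (r * ∑ j ∈ range d, (r * t).choose j) ≤ m) (κ : Type) (c : Finset ℕ → κ)
    (P : Fin s → MvPolynomial (Fin r × Fin m) (ZMod 2)) (g : (Fin s → ZMod 2) → κ)
    (hP : ∀ l, (P l).totalDegree ≤ d)
    (hc : ∀ v : Fin r → ℕ, StrictMono v → (∀ i, v i < 2 ^ m) →
      c (Finset.univ.image v) =
        g (fun l => eval (fun z => ((v z.1 / 2 ^ (z.2 : ℕ) % 2 : ℕ) : ZMod 2)) (P l))) :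
    ∃ S ⊆ Finset.range (2 ^ m), S.card = 2 ^ t ∧
      ∀ A ⊆ S, ∀ B ⊆ S, A.card = r → B.card = r → c A = c B := by
  classical
  obtain ⟨u, Q, h⟩ := chain P hP t hm
  let vec : (Fin t → ZMod 2) → Fin m → ZMod 2 := fun b j => ∑ l, b l * u l j
  have hvec : Function.Injective vec := by
    intro b b' hbb
    have h1 : b - b' = 0 := by
      apply h.inj
      intro j _
      have h2 := congrFun hbb j
      simp only [vec] at h2
      simp only [Pi.sub_apply, sub_mul, Finset.sum_sub_distrib]
      rw [h2, sub_self]
    exact sub_eq_zero.1 h1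
  have hnum : Function.Injective (Pool.Agent.H161R3.num 2 m) := by
    intro x y hxy
    funext j
    have h1 := Pool.Agent.H161R3.num_digit 2 m x j
    have h2 := Pool.Agent.H161R3.num_digit 2 m y j
    rw [hxy] at h1
    exact ZMod.val_injective 2 (h1.symm.trans h2)
  refine ⟨(univ : Finset (Fin t → ZMod 2)).image
    (fun b => Pool.Agent.H161R3.num 2 m (vec b)), ?_, ?_, ?_⟩
  · intro x hx
    obtain ⟨b, -, rfl⟩ := Finset.mem_image.1 hx
    exact Finset.mem_range.2 (Pool.Agent.H161R3.num_lt 2 m _)
  · have h1 : ((univ : Finset (Fin t → ZMod 2)).image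
        (Pool.Agent.H161R3.num 2 m ∘ vec)).card = 2 ^ t := by
      rw [Finset.card_image_of_injective _ (hnum.comp hvec), Finset.card_univ, Fintype.card_fun]
      simp
    exact h1
  · have key : ∀ A ⊆ (univ : Finset (Fin t → ZMod 2)).image
        (fun b => Pool.Agent.H161R3.num 2 m (vec b)), A.card = r →
        c A = g (fun l => eval 0 (P l)) := by
      intro A hA hcard
      have hmem : ∀ a : Fin r, ∃ b : Fin t → ZMod 2,
          Pool.Agent.H161R3.num 2 m (vec b) = A.orderEmbOfFin hcard a := by
        intro a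
        obtain ⟨b, -, hb2⟩ := Finset.mem_image.1 (hA (A.orderEmbOfFin_mem hcard a))
        exact ⟨b, hb2⟩
      choose b hb using hmem
      have h5 := hc (A.orderEmbOfFin hcard) (A.orderEmbOfFin hcard).strictMono
        (fun a => by rw [← hb]; exact Pool.Agent.H161R3.num_lt 2 m _)
      have h6 : Finset.univ.image (A.orderEmbOfFin hcard) = A := by
        ext x
        rw [Finset.mem_image]
        constructor
        · rintro ⟨a, -, rfl⟩
          exact A.orderEmbOfFin_mem hcard a
        · intro hx
          have : x ∈ Set.range (A.orderEmbOfFin hcard) := by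
            rw [Finset.range_orderEmbOfFin]; exact hx
          obtain ⟨a, ha⟩ := this
          exact ⟨a, Finset.mem_univ _, ha⟩
      rw [h6] at h5
      rw [h5]
      congr 1
      funext l
      rw [← h.const (univ.filter (fun z : Fin r × Fin t => b z.1 z.2 = 1)) l]
      congr 1
      congr 1
      funext z
      rw [← hb, Pool.Agent.H161R3.num_digit, ZMod.natCast_zmod_val]
      simp only [vec, comb, Finset.mem_filter, Finset.mem_univ, true_and]
      refine Finset.sum_congr rfl fun l' _ => ?_
      have h01 : ∀ x : ZMod 2, x = 0 ∨ x = 1 := by decide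
      rcases h01 (b z.1 l') with h0 | h0
      · rw [h0]; simp
      · rw [h0]; simp
    intro A hA B hB hA1 hB1
    rw [key A hA hA1, key B hB hB1]

end Q119.LD
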