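import Pool.Agent.Q119.LD.Lower
import Pool.Agent.Q119.LD.Upper
set_option autoImplicit false

/-!
# Ramsey numbers of colourings of algebraic degree `d` over `F_2`
-/

namespace Q119.LD

open MvPolynomial Finset

/-- The `m` lowest binary digits of each entry of a tuple of integers, as elements of `F_2`. -/
def digits (m : ℕ) {r : ℕ} (v : Fin r → ℕ) : Fin r × Fin m → ZMod 2 :=
  fun z => ((v z.1 / 2 ^ (z.2 : ℕ) % 2 : ℕ) : ZMod 2)

/-- The two-colouring `c` of the `r`-subsets of `{0, …, 2 ^ m - 1}` is given by a polynomial of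
degree at most `d` over `F_2` in the `r * m` binary digits of the vertices, listed in increasing
order. -/
def HasDegree (m r d : ℕ) (c : Finset ℕ → ZMod 2) : Prop :=
  ∃ P : MvPolynomial (Fin r × Fin m) (ZMod 2), P.totalDegree ≤ d ∧
    ∀ v : Fin r → ℕ, StrictMono v → (∀ i, v i < 2 ^ m) →
      c (univ.image v) = eval (digits m v) P

/-- All `r`-subsets of `S` have the same colour. -/
def Homogeneous (r : ℕ) (c : Finset ℕ → ZMod 2) (S : Finset ℕ) : Prop :=
  ∀ A ⊆ S, ∀ B ⊆ S, A.card = r → B.card = r → c A = c B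

/-- Every two-colouring of degree at most `d` of the `r`-subsets of `{0, …, 2 ^ m - 1}` has a
homogeneous set of `k` vertices. -/
def Arrow (r d m k : ℕ) : Prop :=
  ∀ c : Finset ℕ → ZMod 2, HasDegree m r d c →
    ∃ S ⊆ range (2 ^ m), S.card = k ∧ Homogeneous r c S

theorem Arrow.mono {r d m k k' : ℕ} (h : Arrow r d m k) (hk : k' ≤ k) : Arrow r d m k' := by
  intro c hc
  obtain ⟨S, hS1, hS2, hS3⟩ := h c hc
  obtain ⟨T, hT1, hT2⟩ := Finset.exists_subset_card_eq (s := S) (n := k') (by omega)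
  exact ⟨T, hT1.trans hS1, hT2, fun A hA B hB => hS3 A (hA.trans hT1) B (hB.trans hT1)⟩

/-- **Upper bound.** -/
theorem arrow_upper (r d m t : ℕ)
    (hm : t + d * (r * ∑ j ∈ range d, (r * t).choose j) ≤ m) : Arrow r d m (2 ^ t) := by
  rintro c ⟨P, hP, hc⟩
  obtain ⟨S, hS1, hS2, hS3⟩ := upper r m 1 d t (by simpa using hm) (ZMod 2) c (fun _ => P)
    (fun x => x 0) (fun _ => hP) hc
  exact ⟨S, hS1, hS2, hS3⟩

/-- digits of one vertex -/
def dig (m : ℕ) (x : ℕ) : V m := fun j => ((x / 2 ^ (j : ℕ) % 2 : ℕ) : ZMod 2)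

theorem dig_inj {m x y : ℕ} (hx : x < 2 ^ m) (hy : y < 2 ^ m) (h : dig m x = dig m y) : x = y := by
  have h1 : finFunctionFinEquiv (m := 2) (n := m).symm ⟨x, hx⟩ =
      finFunctionFinEquiv (m := 2) (n := m).symm ⟨y, hy⟩ := by
    funext j
    apply Fin.ext
    rw [finFunctionFinEquiv_symm_apply_val, finFunctionFinEquiv_symm_apply_val]
    have h2 := congrFun h j
    unfold dig at h2
    have h3 := (ZMod.natCast_eq_natCast_iff' _ _ _).1 h2
    simpa using h3
  have h2 := (finFunctionFinEquiv (m := 2) (n := m)).symm.injective h1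
  exact congrArg Fin.val h2

/-- **Lower bound**, core form. -/
theorem lower_core (r m d t : ℕ) (hr : 2 ≤ r) (hd : 1 ≤ d)
    (hm : 16 * m ≤ ∑ j ∈ range d, t.choose j) :
    ∃ P : MvPolynomial (Fin r × Fin m) (ZMod 2), P.totalDegree ≤ d ∧
      ∀ S ⊆ range (2 ^ m), 3 * 2 ^ (t + 4) + (r - 2) ≤ S.card → ∀ c : ZMod 2,
        ∃ v : Fin r → ℕ, StrictMono v ∧ (∀ i, v i ∈ S) ∧ eval (digits m v) P ≠ c := by
  classical
  obtain ⟨e, rfl⟩ : ∃ e, d = e + 1 := ⟨d - 1, by omega⟩
  obtain ⟨F, ⟨P, hP, hPF⟩, hF⟩ := exists_good m e t (e + 1) le_rfl hm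
  let i0 : Fin r := ⟨0, by omega⟩
  let i1 : Fin r := ⟨1, by omega⟩
  let f : Fin 2 × Fin m → Fin r × Fin m := fun z => (if z.1 = 0 then i0 else i1, z.2)
  refine ⟨rename f P, (totalDegree_rename_le _ _).trans hP, ?_⟩
  intro S hS hcard c
  by_contra hno
  push Not at hno
  apply hF c
  -- enumeration of `S`
  obtain ⟨N, hN⟩ : ∃ N, N = 2 ^ (t + 4) := ⟨_, rfl⟩
  obtain ⟨k, hk⟩ : ∃ k, S.card = k := ⟨_, rfl⟩
  rw [hk, ← hN] at hcard
  let g : Fin k ↪o ℕ := S.orderEmbOfFin hk
  have hgS : ∀ i, g i ∈ S := fun i => S.orderEmbOfFin_mem hk i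
  have hg2 : ∀ i, g i < 2 ^ m := fun i => Finset.mem_range.1 (hS (hgS i))
  -- the colour of pairs
  have hpair : ∀ a b : ℕ, ∀ hab : a < b, ∀ hb : b < 3 * N,
      F (dig m (g ⟨a, by omega⟩)) (dig m (g ⟨b, by omega⟩)) = c := by
    intro a b hab hb
    let idx : Fin r → Fin k := fun i =>
      if h0 : (i : ℕ) = 0 then ⟨a, by omega⟩ else if h1 : (i : ℕ) = 1 then ⟨b, by omega⟩ else
        ⟨3 * N + (i - 2), by have := i.2; omega⟩
    have hidx : StrictMono idx := by
      intro i j hij
      have hij' : (i : ℕ) < j := hij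
      have hi := i.2
      have hj := j.2
      simp only [idx]
      split_ifs with h1 h2 h3 h4 h5 h6 h7 h8
      all_goals first
        | omega
        | (rw [Fin.lt_def]; simp only []; omega)
    have h1 := hno (fun i => g (idx i)) (g.strictMono.comp hidx) (fun i => hgS _)
    rw [eval_rename] at h1
    rw [← h1, ← hPF]
    congr 1
    congr 1
    funext z
    have hr0 : idx i0 = ⟨a, by omega⟩ := by simp [idx, i0]
    have hr1 : idx i1 = ⟨b, by omega⟩ := by simp [idx, i1]
    simp only [Function.comp_apply, f, digits, dig]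
    by_cases hz : z.1 = 0
    · rw [if_pos hz, if_pos hz, hr0]
    · rw [if_neg hz, if_neg hz, hr1]
  -- blocks
  refine ⟨fun i => (univ.filter (fun j : Fin k => (i : ℕ) * N ≤ j ∧ (j : ℕ) < (i + 1) * N)).image
    (fun j => dig m (g j)), ?_, ?_⟩
  · intro i
    rw [Finset.card_image_of_injOn]
    · have hi := i.2
      have h1 : (i + 1) * N ≤ 3 * N := Nat.mul_le_mul_right _ (by omega)
      rw [← hN]
      have h2 : ((univ : Finset (Fin N)).image
          (fun a : Fin N => (⟨i * N + a, by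
            have := a.2
            have h3 : (i + 1) * N = i * N + N := by ring
            omega⟩ : Fin k))) ⊆
          univ.filter (fun j : Fin k => (i : ℕ) * N ≤ j ∧ (j : ℕ) < (i + 1) * N) := by
        intro j hj
        rw [Finset.mem_image] at hj
        obtain ⟨a, -, rfl⟩ := hj
        rw [Finset.mem_filter]
        refine ⟨mem_univ _, ?_, ?_⟩
        · simp
        · have := a.2
          have h3 : ((i : ℕ) + 1) * N = i * N + N := by ring
          simp only
          omega
      refine le_trans ?_ (Finset.card_le_card h2)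
      rw [Finset.card_image_of_injective, Finset.card_univ, Fintype.card_fin]
      intro a b hab
      rw [Fin.mk.injEq] at hab
      exact Fin.ext (by omega)
    · intro a _ b _ hab
      exact g.injective (dig_inj (hg2 _) (hg2 _) hab)
  · intro i j hij u hu v hv
    rw [Finset.mem_image] at hu hv
    obtain ⟨a, ha, rfl⟩ := hu
    obtain ⟨b, hb, rfl⟩ := hv
    rw [Finset.mem_filter] at ha hb
    have hij' : (i : ℕ) + 1 ≤ j := hij
    have hj := j.2
    have h1 : ((i : ℕ) + 1) * N ≤ j * N := Nat.mul_le_mul_right _ hij'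
    have h2 : ((j : ℕ) + 1) * N ≤ 3 * N := Nat.mul_le_mul_right _ (by omega)
    exact hpair a b (by omega) (by omega)

/-- **Lower bound.** -/
theorem arrow_lower (r d m t k : ℕ) (hr : 2 ≤ r) (hd : 1 ≤ d)
    (hm : 16 * m ≤ ∑ j ∈ range d, t.choose j) (hk : 48 * 2 ^ t + (r - 2) ≤ k) :
    ¬ Arrow r d m k := by
  classical
  obtain ⟨P, hP, hS⟩ := lower_core r m d t hr hd hm
  intro h
  -- the enumeration of an `r`-set
  let c : Finset ℕ → ZMod 2 := fun A =>
    if hA : A.card = r then eval (digits m (A.orderEmbOfFin hA)) P else 0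
  have hc : ∀ v : Fin r → ℕ, StrictMono v → c (univ.image v) = eval (digits m v) P := by
    intro v hv
    have hcard : (univ.image v).card = r := by
      rw [Finset.card_image_of_injective _ hv.injective, Finset.card_univ, Fintype.card_fin]
    simp only [c]
    rw [dif_pos hcard]
    have h1 : v = (univ.image v).orderEmbOfFin hcard :=
      Finset.orderEmbOfFin_unique hcard (fun i => Finset.mem_image_of_mem _ (mem_univ _)) hv
    rw [← h1]
  obtain ⟨S, hS1, hS2, hS3⟩ := h c ⟨P, hP, fun v hv _ => hc v hv⟩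
  have hcard : 3 * 2 ^ (t + 4) + (r - 2) ≤ S.card := by
    rw [hS2]
    have : 3 * 2 ^ (t + 4) = 48 * 2 ^ t := by rw [pow_add]; ring
    omega
  obtain ⟨v0, hv0, hv0S, -⟩ := hS S hS1 hcard 0
  obtain ⟨v, hv, hvS, hne⟩ := hS S hS1 hcard (c (univ.image v0))
  apply hne
  rw [← hc v hv]
  have hsub : ∀ w : Fin r → ℕ, (∀ i, w i ∈ S) → univ.image w ⊆ S := by
    intro w hw x hx
    obtain ⟨i, -, rfl⟩ := Finset.mem_image.1 hx
    exact hw i
  have hcd : ∀ w : Fin r → ℕ, StrictMono w → (univ.image w).card = r := by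
    intro w hw
    rw [Finset.card_image_of_injective _ hw.injective, Finset.card_univ, Fintype.card_fin]
  exact hS3 _ (hsub v hvS) _ (hsub v0 hv0S) (hcd v hv) (hcd v0 hv0)

end Q119.LD
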