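import Pool.Agent.Q119.LD.Asym
set_option autoImplicit false

/-!
# Graph form
-/

namespace Q119.LD

open Finset Filter MvPolynomial

/-- The red/blue colouring of the edges of the complete graph on `{0, …, 2 ^ m - 1}` with red graph
`G` is given by a polynomial of degree at most `d` over `F_2` in the `2 m` binary digits of the end
vertices `x < y`. -/
def AlgDegree (m d : ℕ) (G : SimpleGraph (Fin (2 ^ m))) : Prop :=
  ∃ P : MvPolynomial (Fin 2 × Fin m) (ZMod 2), P.totalDegree ≤ d ∧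
    ∀ x y : Fin (2 ^ m), x < y → (G.Adj x y ↔ eval (digits m ![(x : ℕ), (y : ℕ)]) P = 1)

/-- Every red/blue colouring of degree at most `d` of the edges of the complete graph on
`{0, …, 2 ^ m - 1}` contains a monochromatic `K_k`. -/
def MonoK (d m k : ℕ) : Prop :=
  ∀ G : SimpleGraph (Fin (2 ^ m)), AlgDegree m d G →
    (∃ s : Finset (Fin (2 ^ m)), G.IsNClique k s) ∨ (∃ s : Finset (Fin (2 ^ m)), Gᶜ.IsNClique k s)

theorem image_pair (x y : ℕ) : (univ : Finset (Fin 2)).image ![x, y] = {x, y} := by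
  ext z
  simp [Fin.exists_fin_two, eq_comm]

theorem strictMono_pair {x y : ℕ} (h : x < y) : StrictMono ![x, y] := by
  intro i j hij
  fin_cases i <;> fin_cases j
  · exact absurd hij (lt_irrefl _)
  · simpa using h
  · exact absurd hij (by decide)
  · exact absurd hij (lt_irrefl _)

theorem eta_pair (v : Fin 2 → ℕ) : v = ![v 0, v 1] := by
  funext i
  fin_cases i <;> rfl

theorem monoK_of_arrow {d m k : ℕ} (h : Arrow 2 d m k) : MonoK d m k := by
  classical
  rintro G ⟨P, hP, hG⟩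
  let c : Finset ℕ → ZMod 2 := fun A =>
    if hA : A.card = 2 then eval (digits m (A.orderEmbOfFin hA)) P else 0
  have hc : ∀ v : Fin 2 → ℕ, StrictMono v → c (univ.image v) = eval (digits m v) P := by
    intro v hv
    have hcard : (univ.image v).card = 2 := by
      rw [Finset.card_image_of_injective _ hv.injective, Finset.card_univ, Fintype.card_fin]
    simp only [c]
    rw [dif_pos hcard]
    have h1 : v = (univ.image v).orderEmbOfFin hcard :=
      Finset.orderEmbOfFin_unique hcard (fun i => Finset.mem_image_of_mem _ (mem_univ _)) hv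
    rw [← h1]
  obtain ⟨S, hS1, hS2, hS3⟩ := h c ⟨P, hP, fun v hv _ => hc v hv⟩
  -- the set as a set of vertices
  let s : Finset (Fin (2 ^ m)) := univ.filter (fun x => (x : ℕ) ∈ S)
  have hs : s.card = k := by
    have h1 : s.image (fun x : Fin (2 ^ m) => (x : ℕ)) = S := by
      ext x
      rw [Finset.mem_image]
      constructor
      · rintro ⟨y, hy, rfl⟩
        exact (Finset.mem_filter.1 hy).2
      · intro hx
        exact ⟨⟨x, Finset.mem_range.1 (hS1 hx)⟩, Finset.mem_filter.2 ⟨mem_univ _, hx⟩, rfl⟩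
    rw [← hS2, ← h1, Finset.card_image_of_injective _ Fin.val_injective]
  have hmem : ∀ x ∈ s, (x : ℕ) ∈ S := fun x hx => (Finset.mem_filter.1 hx).2
  have hadj : ∀ x y : Fin (2 ^ m), x < y → (G.Adj x y ↔ c {(x : ℕ), (y : ℕ)} = 1) := by
    intro x y hxy
    rw [hG x y hxy, ← hc _ (strictMono_pair hxy), image_pair]
  have hpair : ∀ x ∈ s, ∀ y ∈ s, x ≠ y → ({(x : ℕ), (y : ℕ)} : Finset ℕ) ⊆ S ∧
      ({(x : ℕ), (y : ℕ)} : Finset ℕ).card = 2 := by
    intro x hx y hy hxy
    refine ⟨?_, Finset.card_pair (fun h => hxy (Fin.ext h))⟩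
    intro z hz
    rw [Finset.mem_insert, Finset.mem_singleton] at hz
    rcases hz with rfl | rfl
    · exact hmem _ hx
    · exact hmem _ hy
  by_cases hred : ∃ x ∈ s, ∃ y ∈ s, x < y ∧ c {(x : ℕ), (y : ℕ)} = 1
  · left
    obtain ⟨x0, hx0, y0, hy0, hxy0, hc0⟩ := hred
    refine ⟨s, ?_, hs⟩
    intro x hx y hy hxy
    have h2 : c {(x : ℕ), (y : ℕ)} = 1 := by
      rw [← hc0]
      exact hS3 _ (hpair x hx y hy hxy).1 _ (hpair x0 hx0 y0 hy0 hxy0.ne).1
        (hpair x hx y hy hxy).2 (hpair x0 hx0 y0 hy0 hxy0.ne).2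
    rcases lt_or_gt_of_ne hxy with hlt | hlt
    · exact (hadj x y hlt).2 h2
    · refine ((hadj y x hlt).2 ?_).symm
      rw [Finset.pair_comm]
      exact h2
  · right
    push Not at hred
    refine ⟨s, ?_, hs⟩
    intro x hx y hy hxy
    rw [SimpleGraph.compl_adj]
    refine ⟨hxy, fun hA => ?_⟩
    rcases lt_or_gt_of_ne hxy with hlt | hlt
    · exact hred x hx y hy hlt ((hadj x y hlt).1 hA)
    · exact hred y hy x hx hlt ((hadj y x hlt).1 hA.symm)

theorem arrow_of_monoK {d m k : ℕ} (h : MonoK d m k) : Arrow 2 d m k := by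
  classical
  rintro c ⟨P, hP, hc⟩
  let G : SimpleGraph (Fin (2 ^ m)) :=
    { Adj := fun x y => x ≠ y ∧ c {(x : ℕ), (y : ℕ)} = 1
      symm := ⟨fun x y hxy => ⟨hxy.1.symm, by rw [Finset.pair_comm]; exact hxy.2⟩⟩
      loopless := ⟨fun x hx => hx.1 rfl⟩ }
  have hG : AlgDegree m d G := by
    refine ⟨P, hP, fun x y hxy => ?_⟩
    have h1 := hc ![(x : ℕ), (y : ℕ)] (strictMono_pair hxy) (by
      intro i
      fin_cases i
      · exact x.2
      · exact y.2)
    rw [image_pair] at h1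
    rw [← h1]
    exact ⟨fun h => h.2, fun h => ⟨hxy.ne, h⟩⟩
  have key : ∀ (s : Finset (Fin (2 ^ m))) (z : ZMod 2), s.card = k →
      (∀ x ∈ s, ∀ y ∈ s, x ≠ y → c {(x : ℕ), (y : ℕ)} = z) →
      ∃ S ⊆ range (2 ^ m), S.card = k ∧ Homogeneous 2 c S := by
    intro s z hs hz
    refine ⟨s.image (fun x : Fin (2 ^ m) => (x : ℕ)), ?_, ?_, ?_⟩
    · intro x hx
      obtain ⟨y, -, rfl⟩ := Finset.mem_image.1 hx
      exact Finset.mem_range.2 y.2
    · rw [Finset.card_image_of_injective _ Fin.val_injective, hs]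
    · have h2 : ∀ A ⊆ s.image (fun x : Fin (2 ^ m) => (x : ℕ)), A.card = 2 → c A = z := by
        intro A hA hA2
        obtain ⟨x, y, hxy, rfl⟩ := Finset.card_eq_two.1 hA2
        obtain ⟨x', hx', rfl⟩ := Finset.mem_image.1 (hA (Finset.mem_insert_self _ _))
        obtain ⟨y', hy', rfl⟩ := Finset.mem_image.1
          (hA (Finset.mem_insert_of_mem (Finset.mem_singleton_self _)))
        exact hz x' hx' y' hy' (fun h => hxy (by rw [h]))
      intro A hA B hB hA2 hB2
      rw [h2 A hA hA2, h2 B hB hB2]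
  rcases h G hG with ⟨s, hs⟩ | ⟨s, hs⟩
  · exact key s 1 hs.card_eq fun x hx y hy hxy => (hs.isClique hx hy hxy).2
  · refine key s 0 hs.card_eq fun x hx y hy hxy => ?_
    have h3 := hs.isClique hx hy hxy
    rw [SimpleGraph.compl_adj] at h3
    have h01 : ∀ z : ZMod 2, z ≠ 1 → z = 0 := by decide
    exact h01 _ fun h4 => h3.2 ⟨hxy, h4⟩

theorem monoK_iff {d m k : ℕ} : MonoK d m k ↔ Arrow 2 d m k :=
  ⟨arrow_of_monoK, monoK_of_arrow⟩

end Q119.LD
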