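import Mathlib
set_option autoImplicit false

/-!
# Interpolation by polynomials of low degree over `F_2`
-/

namespace Q119.LD

open MvPolynomial Finset

/-- `F_2 ^ m` -/
abbrev V (m : ℕ) := Fin m → ZMod 2

/-- functions on `F_2 ^ m` given by polynomials of degree at most `e` -/
def IsPol (m e : ℕ) (q : V m → ZMod 2) : Prop :=
  ∃ Q : MvPolynomial (Fin m) (ZMod 2), Q.totalDegree ≤ e ∧ ∀ x, eval x Q = q x

theorem IsPol.add {m e : ℕ} {p q : V m → ZMod 2} (hp : IsPol m e p) (hq : IsPol m e q) :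
    IsPol m e (fun x => p x + q x) := by
  obtain ⟨P, hP, hP2⟩ := hp
  obtain ⟨Q, hQ, hQ2⟩ := hq
  exact ⟨P + Q, (totalDegree_add _ _).trans (max_le hP hQ), fun x => by rw [map_add, hP2, hQ2]⟩

theorem IsPol.smul {m e : ℕ} {q : V m → ZMod 2} (c : ZMod 2) (hq : IsPol m e q) :
    IsPol m e (fun x => c * q x) := by
  obtain ⟨Q, hQ, hQ2⟩ := hq
  refine ⟨C c * Q, (totalDegree_mul _ _).trans ?_, fun x => by rw [map_mul, eval_C, hQ2]⟩
  rw [totalDegree_C, zero_add]
  exact hQ

theorem IsPol.zero (m e : ℕ) : IsPol m e (fun _ => 0) :=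
  ⟨0, by simp, fun x => by simp⟩

theorem IsPol.const (m e : ℕ) (c : ZMod 2) : IsPol m e (fun _ => c) :=
  ⟨C c, by simp, fun x => by simp⟩

theorem IsPol.sum {m e : ℕ} {ι : Type} (s : Finset ι) (q : ι → V m → ZMod 2)
    (hq : ∀ i ∈ s, IsPol m e (q i)) : IsPol m e (fun x => ∑ i ∈ s, q i x) := by
  classical
  induction s using Finset.induction_on with
  | empty => simpa using IsPol.zero m e
  | insert a s ha ih =>
    have h1 := (hq a (Finset.mem_insert_self _ _)).add
      (ih fun i hi => hq i (Finset.mem_insert_of_mem hi))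
    have h2 : (fun x => ∑ i ∈ insert a s, q i x) = fun x => q a x + ∑ i ∈ s, q i x := by
      funext x
      rw [Finset.sum_insert ha]
    rw [h2]
    exact h1

theorem IsPol.mono {m e e' : ℕ} (h : e ≤ e') {q : V m → ZMod 2} (hq : IsPol m e q) :
    IsPol m e' q := by
  obtain ⟨Q, hQ, hQ2⟩ := hq
  exact ⟨Q, hQ.trans h, hQ2⟩

theorem IsPol.mul {m e e' : ℕ} {p q : V m → ZMod 2} (hp : IsPol m e p) (hq : IsPol m e' q) :
    IsPol m (e + e') (fun x => p x * q x) := by
  obtain ⟨P, hP, hP2⟩ := hp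
  obtain ⟨Q, hQ, hQ2⟩ := hq
  exact ⟨P * Q, (totalDegree_mul _ _).trans (Nat.add_le_add hP hQ),
    fun x => by rw [map_mul, hP2, hQ2]⟩

/-- linear functionals are polynomials of degree at most one -/
theorem isPol_linear {m : ℕ} (f : V m →ₗ[ZMod 2] ZMod 2) : IsPol m 1 f := by
  refine ⟨∑ j : Fin m, C (f (Pi.single j 1)) * X j, ?_, ?_⟩
  · refine totalDegree_finsetSum_le fun j _ => ?_
    refine (totalDegree_mul _ _).trans ?_
    rw [totalDegree_C, totalDegree_X]
  · intro x
    rw [map_sum, f.pi_apply_eq_sum_univ x]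
    refine Finset.sum_congr rfl fun j _ => ?_
    rw [map_mul, eval_C, eval_X, smul_eq_mul, mul_comm]
    congr 2
    funext i
    rw [Pi.single_apply]
    simp [eq_comm]

/-- every function on `I` is the restriction of a polynomial of degree at most `e` -/
def Interp {m : ℕ} (e : ℕ) (I : Finset (V m)) : Prop :=
  ∀ g : V m → ZMod 2, ∃ q, IsPol m e q ∧ ∀ x ∈ I, q x = g x

/-- sign -/
def sgn (z : ZMod 2) : ℤ := if z = 0 then 1 else -1

theorem sgn_mul (z w : ZMod 2) : sgn z * sgn w = sgn (z + w) := by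
  revert z w; decide

theorem sgn_add_one (z : ZMod 2) : sgn (z + 1) = - sgn z := by
  revert z; decide

theorem sgn_self (z : ZMod 2) : sgn z * sgn z = 1 := by
  revert z; decide

theorem sum_sgn {m : ℕ} (x : V m) (hx : x ≠ 0) : ∑ a : V m, sgn (a ⬝ᵥ x) = 0 := by
  classical
  obtain ⟨j, hj⟩ := Function.ne_iff.1 hx
  rw [Pi.zero_apply] at hj
  have hj1 : x j = 1 := by
    have h01 : ∀ z : ZMod 2, z ≠ 0 → z = 1 := by decide
    exact h01 _ hj
  have h1 : ∑ a : V m, sgn (a ⬝ᵥ x) = ∑ a : V m, sgn ((a + Pi.single j 1) ⬝ᵥ x) :=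
    (Equiv.sum_comp (Equiv.addRight (Pi.single j (1 : ZMod 2) : V m))
      (fun a => sgn (a ⬝ᵥ x))).symm
  have h2 : ∀ a : V m, sgn ((a + Pi.single j 1) ⬝ᵥ x) = - sgn (a ⬝ᵥ x) := by
    intro a
    rw [add_dotProduct, single_dotProduct, hj1, one_mul, sgn_add_one]
  simp_rw [h2] at h1
  rw [Finset.sum_neg_distrib] at h1
  omega

/-- a balanced linear functional -/
theorem exists_balanced {m : ℕ} (S : Finset (V m)) :
    ∃ a : V m, (((S.filter (fun x => a ⬝ᵥ x = 0)).card : ℤ) -
      (S.filter (fun x => ¬ a ⬝ᵥ x = 0)).card) ^ 2 ≤ S.card := by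
  classical
  have h1 : ∀ a : V m, (((S.filter (fun x => a ⬝ᵥ x = 0)).card : ℤ) -
      (S.filter (fun x => ¬ a ⬝ᵥ x = 0)).card) = ∑ x ∈ S, sgn (a ⬝ᵥ x) := by
    intro a
    rw [← Finset.sum_filter_add_sum_filter_not S (fun x => a ⬝ᵥ x = 0)]
    have h2 : ∑ x ∈ S.filter (fun x => a ⬝ᵥ x = 0), sgn (a ⬝ᵥ x) =
        (S.filter (fun x => a ⬝ᵥ x = 0)).card := by
      rw [Finset.card_eq_sum_ones]
      push_cast
      refine Finset.sum_congr rfl fun x hx => ?_
      rw [sgn, if_pos (Finset.mem_filter.1 hx).2]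
    have h3 : ∑ x ∈ S.filter (fun x => ¬ a ⬝ᵥ x = 0), sgn (a ⬝ᵥ x) =
        - ((S.filter (fun x => ¬ a ⬝ᵥ x = 0)).card : ℤ) := by
      rw [Finset.card_eq_sum_ones]
      push_cast
      rw [← Finset.sum_neg_distrib]
      refine Finset.sum_congr rfl fun x hx => ?_
      rw [sgn, if_neg (Finset.mem_filter.1 hx).2]
    rw [h2, h3]
    ring
  by_contra hno
  push Not at hno
  simp_rw [h1] at hno
  have h4 : ∑ a : V m, (∑ x ∈ S, sgn (a ⬝ᵥ x)) ^ 2 = ∑ _a : V m, (S.card : ℤ) := by
    have h5 : ∀ a : V m, (∑ x ∈ S, sgn (a ⬝ᵥ x)) ^ 2 =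
        ∑ x ∈ S, ∑ y ∈ S, sgn (a ⬝ᵥ (x + y)) := by
      intro a
      rw [pow_two, Finset.sum_mul_sum]
      refine Finset.sum_congr rfl fun x _ => Finset.sum_congr rfl fun y _ => ?_
      rw [sgn_mul, dotProduct_add]
    simp_rw [h5]
    rw [Finset.sum_comm]
    have h6 : ∀ x ∈ S, ∑ a : V m, ∑ y ∈ S, sgn (a ⬝ᵥ (x + y)) = ∑ _a : V m, (1 : ℤ) := by
      intro x hx
      rw [Finset.sum_comm]
      rw [Finset.sum_eq_single x]
      · refine Finset.sum_congr rfl fun a _ => ?_
        have : x + x = 0 := by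
          funext j
          exact CharTwo.add_self_eq_zero _
        rw [this, dotProduct_zero]
        rfl
      · intro y _ hyx
        refine sum_sgn _ ?_
        intro h0
        apply hyx
        have h7 : x + y + y = y := by rw [h0, zero_add]
        have h8 : x + y + y = x := by
          funext j
          simp only [Pi.add_apply]
          rw [add_assoc, CharTwo.add_self_eq_zero, add_zero]
        exact h7.symm.trans h8
      · intro h; exact absurd hx h
    rw [Finset.sum_congr rfl h6]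
    simp only [Finset.sum_const, nsmul_eq_mul]
    ring
  have h7 : ∑ _a : V m, (S.card : ℤ) < ∑ a : V m, (∑ x ∈ S, sgn (a ⬝ᵥ x)) ^ 2 :=
    Finset.sum_lt_sum_of_nonempty ⟨0, mem_univ _⟩ fun a _ => hno a
  rw [h4] at h7
  exact lt_irrefl _ h7

theorem interp_singleton {m : ℕ} (e : ℕ) (x : V m) : Interp e ({x} : Finset (V m)) := by
  intro g
  refine ⟨fun _ => g x, IsPol.const _ _ _, ?_⟩
  intro y hy
  rw [Finset.mem_singleton.1 hy]

theorem interp_union {m e : ℕ} (a : V m) (I J : Finset (V m)) (hI : Interp (e + 1) I)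
    (hJ : Interp e J) (hI0 : ∀ x ∈ I, a ⬝ᵥ x = 0) (hJ1 : ∀ x ∈ J, a ⬝ᵥ x ≠ 0)
    [DecidableEq (V m)] : Interp (e + 1) (I ∪ J) := by
  intro g
  obtain ⟨q, hq, hq2⟩ := hI g
  obtain ⟨q', hq', hq'2⟩ := hJ (fun x => g x - q x)
  let f : V m →ₗ[ZMod 2] ZMod 2 :=
    { toFun := fun x => a ⬝ᵥ x
      map_add' := fun x y => dotProduct_add _ _ _
      map_smul' := fun c x => by simp [dotProduct_smul] }
  have h1 : IsPol m (e + 1) (fun x => f x * q' x) := by
    have := (isPol_linear f).mul hq'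
    rw [Nat.add_comm] at this
    exact this
  refine ⟨fun x => q x + f x * q' x, hq.add h1, ?_⟩
  intro x hx
  change q x + f x * q' x = g x
  rcases Finset.mem_union.1 hx with h | h
  · have : f x = 0 := hI0 x h
    rw [this, zero_mul, add_zero]
    exact hq2 x h
  · have h01 : ∀ z : ZMod 2, z ≠ 0 → z = 1 := by decide
    have : f x = 1 := h01 _ (hJ1 x h)
    rw [this, one_mul, hq'2 x h]
    ring

/-- number of subsets of size at most `e` of a `t`-set -/
def phi (t e : ℕ) : ℕ := ∑ j ∈ range (e + 1), t.choose j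

theorem phi_succ (t e : ℕ) : phi (t + 1) (e + 1) = phi t (e + 1) + phi t e := by
  unfold phi
  rw [Finset.sum_range_succ' (fun j => (t + 1).choose j) (e + 1)]
  rw [Finset.sum_range_succ' (fun j => t.choose j) (e + 1)]
  simp only [Nat.choose_succ_succ, Nat.choose_zero_right]
  rw [Finset.sum_add_distrib]
  ring

theorem phi_zero_left (e : ℕ) : phi 0 e = 1 := by
  unfold phi
  rw [Finset.sum_range_succ']
  simp

theorem phi_zero_right (t : ℕ) : phi t 0 = 1 := by
  simp [phi]

/-- A set of at least `16 * 2 ^ t - 12 * (3 / 2) ^ t` points contains `phi t e` points on which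
every function is a polynomial of degree at most `e`. -/
theorem exists_interp {m : ℕ} (t e : ℕ) (S : Finset (V m))
    (hS : (16 : ℝ) * 2 ^ t - 12 * (3 / 2) ^ t ≤ S.card) :
    ∃ I ⊆ S, Interp e I ∧ I.card = phi t e := by
  classical
  induction t generalizing e S with
  | zero =>
    have h1 : 4 ≤ S.card := by norm_num at hS; exact hS
    have h2 : S.Nonempty := by
      rw [← Finset.card_pos]
      omega
    obtain ⟨x, hx⟩ := h2
    exact ⟨{x}, by simpa using hx, interp_singleton e x, by rw [phi_zero_left]; simp⟩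
  | succ t ih =>
    obtain ⟨a, ha⟩ := exists_balanced S
    set p := (S.filter (fun x => a ⬝ᵥ x = 0)).card with hp
    set q := (S.filter (fun x => ¬ a ⬝ᵥ x = 0)).card with hq
    have hpq : p + q = S.card := Finset.card_filter_add_card_filter_not _
    have hpos : (0 : ℝ) < (3 / 2) ^ t := by positivity
    have h23 : (2 : ℝ) ^ t ≤ ((3 / 2) ^ t) ^ 2 := by
      rw [← pow_mul, Nat.mul_comm, pow_mul]
      exact pow_le_pow_left₀ (by norm_num) (by norm_num) t
    have h32 : ((3 : ℝ) / 2) ^ t ≤ 2 ^ t := pow_le_pow_left₀ (by norm_num) (by norm_num) t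
    have h1t : (1 : ℝ) ≤ (3 / 2) ^ t := one_le_pow₀ (by norm_num)
    set X : ℝ := 2 ^ t with hX
    set Y : ℝ := (3 / 2) ^ t with hY
    have hS' : 32 * X - 18 * Y ≤ (S.card : ℝ) := by
      rw [pow_succ, pow_succ] at hS
      linarith
    have ha' : ((p : ℝ) - q) ^ 2 ≤ S.card := by exact_mod_cast ha
    have hpq' : (p : ℝ) + q = S.card := by exact_mod_cast hpq
    have key : ∀ u v : ℝ, u + v = S.card → (u - v) ^ 2 ≤ S.card → 16 * X - 12 * Y ≤ v := by
      intro u v huv huv2
      by_contra hlt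
      push Not at hlt
      -- u - v = s - 2 v > s - 2 (16 X - 12 Y)
      set s : ℝ := (S.card : ℝ) with hs
      have h1 : u - v = s - 2 * v := by linarith
      have h2 : 6 * Y < u - v := by linarith
      have h3 : (s - 2 * (16 * X - 12 * Y)) ^ 2 < (u - v) ^ 2 := by
        apply pow_lt_pow_left₀ _ _ (by norm_num)
        · linarith
        · linarith
      set δ : ℝ := s - (32 * X - 18 * Y) with hδ
      have hδ0 : 0 ≤ δ := by linarith
      have h4 : s - 2 * (16 * X - 12 * Y) = δ + 6 * Y := by rw [hδ]; ring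
      have h5 : s = δ + (32 * X - 18 * Y) := by rw [hδ]; ring
      rw [h4] at h3
      have h6 : (δ + 6 * Y) ^ 2 < δ + (32 * X - 18 * Y) := by
        rw [← h5]; exact lt_of_lt_of_le h3 huv2
      nlinarith [mul_nonneg hδ0 hδ0, mul_nonneg hδ0 (sub_nonneg.2 h1t)]
    have hvq := key p q hpq' ha'
    have hvp := key q p (by linarith) (by nlinarith)
    obtain ⟨I, hI1, hI2, hI3⟩ := ih e (S.filter (fun x => a ⬝ᵥ x = 0)) (by rw [← hp]; exact hvp)
    cases e with
    | zero =>
      refine ⟨I, hI1.trans (Finset.filter_subset _ _), hI2, ?_⟩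
      rw [hI3, phi_zero_right, phi_zero_right]
    | succ e =>
      obtain ⟨J, hJ1, hJ2, hJ3⟩ := ih e (S.filter (fun x => ¬ a ⬝ᵥ x = 0)) (by rw [← hq]; exact hvq)
      refine ⟨I ∪ J, ?_, ?_, ?_⟩
      · exact Finset.union_subset (hI1.trans (Finset.filter_subset _ _))
          (hJ1.trans (Finset.filter_subset _ _))
      · exact interp_union a I J hI2 hJ2 (fun x hx => (Finset.mem_filter.1 (hI1 hx)).2)
          (fun x hx => (Finset.mem_filter.1 (hJ1 hx)).2)
      · rw [Finset.card_union_of_disjoint, hI3, hJ3, phi_succ]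
        rw [Finset.disjoint_left]
        intro x h1 h2
        exact (Finset.mem_filter.1 (hJ1 h2)).2 (Finset.mem_filter.1 (hI1 h1)).2

/-- Exchange: from an interpolation set one can remove at most `Z.card` points such that there are
interpolating polynomials that vanish on `Z`. -/
theorem exists_interp_vanish {m e : ℕ} (I : Finset (V m)) (hI : Interp e I) (Z : Finset (V m)) :
    ∃ J ⊆ I, I.card ≤ J.card + Z.card ∧
      ∀ g : V m → ZMod 2, ∃ q, IsPol m e q ∧ (∀ x ∈ J, q x = g x) ∧ ∀ z ∈ Z, q z = 0 := by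
  classical
  induction Z using Finset.induction_on with
  | empty =>
    refine ⟨I, subset_rfl, by simp, fun g => ?_⟩
    obtain ⟨q, hq, hq2⟩ := hI g
    exact ⟨q, hq, hq2, by simp⟩
  | insert z Z hz ih =>
    obtain ⟨J, hJ1, hJ2, hJ3⟩ := ih
    rw [Finset.card_insert_of_notMem hz]
    by_cases hA : ∀ y ∈ J, ∃ q, IsPol m e q ∧ (∀ x ∈ J, q x = if x = y then 1 else 0) ∧
        (∀ w ∈ Z, q w = 0) ∧ q z = 0
    · refine ⟨J, hJ1, by omega, fun g => ?_⟩
      choose! q hq1 hq2 hq3 hq4 using hA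
      refine ⟨fun x => ∑ y ∈ J, g y * q y x, IsPol.sum _ _ fun y hy => (hq1 y hy).smul _, ?_, ?_⟩
      · intro x hx
        change ∑ y ∈ J, g y * q y x = g x
        rw [Finset.sum_eq_single x]
        · rw [hq2 x hx x hx, if_pos rfl, mul_one]
        · intro y hy hyx
          rw [hq2 y hy x hx, if_neg (Ne.symm hyx), mul_zero]
        · intro h; exact absurd hx h
      · intro w hw
        refine Finset.sum_eq_zero fun y hy => ?_
        rcases Finset.mem_insert.1 hw with rfl | h
        · rw [hq4 y hy, mul_zero]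
        · rw [hq3 y hy w h, mul_zero]
    · push Not at hA
      obtain ⟨y0, hy0, hA⟩ := hA
      obtain ⟨q0, hq0, hq02, hq03⟩ := hJ3 (fun x => if x = y0 then 1 else 0)
      have hq0z : q0 z = 1 := by
        have h01 : ∀ z : ZMod 2, z ≠ 0 → z = 1 := by decide
        exact h01 _ (hA q0 hq0 hq02 hq03)
      refine ⟨J.erase y0, (Finset.erase_subset _ _).trans hJ1, ?_, fun g => ?_⟩
      · rw [Finset.card_erase_of_mem hy0]
        have : 0 < J.card := Finset.card_pos.2 ⟨y0, hy0⟩
        omega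
      · obtain ⟨q, hq, hq2, hq3⟩ := hJ3 g
        refine ⟨fun x => q x + (- q z) * q0 x, hq.add (hq0.smul _), ?_, ?_⟩
        · intro x hx
          rw [Finset.mem_erase] at hx
          beta_reduce
          rw [hq02 x hx.2, if_neg hx.1, mul_zero, add_zero, hq2 x hx.2]
        · intro w hw
          beta_reduce
          rcases Finset.mem_insert.1 hw with rfl | h
          · rw [hq0z]; ring
          · rw [hq3 w h, hq03 w h]; ring

/-- dual functionals of linearly independent vectors -/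
theorem exists_dual {m a : ℕ} (y : Fin a → V m) (hy : LinearIndependent (ZMod 2) y) :
    ∃ ζ : Fin a → V m → ZMod 2, (∀ l, IsPol m 1 (ζ l)) ∧
      ∀ l l', ζ l (y l') = if l = l' then 1 else 0 := by
  classical
  have h1 : ∀ l : Fin a, ∃ f : V m →ₗ[ZMod 2] ZMod 2, ∀ l', f (y l') = if l = l' then 1 else 0 := by
    intro l
    obtain ⟨g, hg⟩ := LinearMap.exists_extend
      ((Finsupp.lapply l : (Fin a →₀ ZMod 2) →ₗ[ZMod 2] ZMod 2) ∘ₗ hy.repr)
    refine ⟨g, fun l' => ?_⟩
    have h2 := LinearMap.congr_fun hg (⟨y l', Submodule.subset_span ⟨l', rfl⟩⟩ :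
      Submodule.span (ZMod 2) (Set.range y))
    simp only [LinearMap.comp_apply, Submodule.subtype_apply] at h2
    rw [h2]
    have h3 : hy.repr ⟨y l', Submodule.subset_span ⟨l', rfl⟩⟩ = Finsupp.single l' 1 :=
      hy.repr_eq_single l' _ rfl
    change (hy.repr ⟨y l', Submodule.subset_span ⟨l', rfl⟩⟩) l = _
    rw [h3, Finsupp.single_apply]
    simp [eq_comm]
  choose f hf using h1
  exact ⟨fun l => f l, fun l => isPol_linear _, hf⟩

/-- a spanning family -/
theorem exists_gen {m n : ℕ} (S : Finset (V m))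
    (h : Module.finrank (ZMod 2) (Submodule.span (ZMod 2) (S : Set (V m))) ≤ n) :
    ∃ w : Fin n → V m, ∀ x ∈ S, ∃ c : Fin n → ZMod 2, x = ∑ l, c l • w l := by
  classical
  obtain ⟨f, hf1, hf2, hf3⟩ := Submodule.exists_fun_fin_finrank_span_eq (ZMod 2) (S : Set (V m))
  generalize Module.finrank (ZMod 2) (Submodule.span (ZMod 2) (S : Set (V m))) = k at *
  refine ⟨fun l => if h' : (l : ℕ) < k then f ⟨l, h'⟩ else 0, fun x hx => ?_⟩
  have hx' : x ∈ Submodule.span (ZMod 2) (Set.range f) := by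
    rw [hf2]; exact Submodule.subset_span hx
  rw [Submodule.mem_span_range_iff_exists_fun] at hx'
  obtain ⟨c, hc⟩ := hx'
  refine ⟨fun l => if h' : (l : ℕ) < k then c ⟨l, h'⟩ else 0, ?_⟩
  rw [← hc]
  obtain ⟨n', rfl⟩ := Nat.exists_eq_add_of_le h
  rw [Fin.sum_univ_add]
  rw [Finset.sum_eq_zero (s := (univ : Finset (Fin n'))), add_zero]
  · refine Finset.sum_congr rfl fun i _ => ?_
    have : ((Fin.castAdd n' i : Fin (k + n')) : ℕ) < k := i.2
    beta_reduce
    rw [dif_pos this, dif_pos this]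
    rfl
  · intro i _
    have : ¬ ((Fin.natAdd k i : Fin (k + n')) : ℕ) < k := by simp
    beta_reduce
    rw [dif_neg this, zero_smul]

/-- linearly independent elements -/
theorem exists_indep {m a : ℕ} (S : Finset (V m))
    (h : a ≤ Module.finrank (ZMod 2) (Submodule.span (ZMod 2) (S : Set (V m)))) :
    ∃ y : Fin a → V m, LinearIndependent (ZMod 2) y ∧ ∀ l, y l ∈ S := by
  obtain ⟨f, hf1, hf2, hf3⟩ := Submodule.exists_fun_fin_finrank_span_eq (ZMod 2) (S : Set (V m))
  exact ⟨fun l => f (Fin.castLE h l), hf3.comp _ (Fin.castLE_injective h), fun l => hf1 _⟩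

end Q119.LD
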