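import Pool.Agent.Q119.LD.Count
set_option autoImplicit false

/-!
# Colourings of algebraic degree `d` over `F_2`: lower bound
-/

namespace Q119.LD

open MvPolynomial Finset

/-- three consecutive large blocks such that all pairs from different blocks have colour `c` -/
def Blocks (m N : ℕ) (F : V m → V m → ZMod 2) (c : ZMod 2) : Prop :=
  ∃ S : Fin 3 → Finset (V m), (∀ i, N ≤ (S i).card) ∧
    ∀ i j, i < j → ∀ u ∈ S i, ∀ v ∈ S j, F u v = c

section Struct

variable (m b n ρ : ℕ)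

abbrev T2 := (Fin (b + n) → V m) × (Fin b → V m) × (Fin ρ → Fin b → ZMod 2)

def lc {m b : ℕ} (w : Fin b → V m) (c : Fin b → ZMod 2) : V m := ∑ k, c k • w k

def p2 (σ : T2 m b n ρ) (il : Fin ρ × Fin (b + n)) : V m × V m :=
  (lc σ.2.1 (σ.2.2 il.1), σ.1 il.2)

def p3 (σ : T2 m b n ρ) (il : Fin ρ × Fin (b + n)) : V m × V m :=
  (σ.1 il.2, lc σ.2.1 (σ.2.2 il.1))

abbrev T1 (m b b2 ρ : ℕ) := (Fin b → V m) × (Fin b → V m) × (Fin b2 → V m) ×
  (Fin ρ → Fin b2 → ZMod 2)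

def p1 (m b b2 ρ : ℕ) (σ : T1 m b b2 ρ) : (Fin ρ × Fin b) ⊕ (Fin ρ × Fin b) → V m × V m :=
  Sum.elim (fun ji => (σ.1 ji.2, lc σ.2.2.1 (σ.2.2.2 ji.1)))
    (fun jl => (lc σ.2.2.1 (σ.2.2.2 jl.1), σ.2.1 jl.2))

end Struct

theorem card_T2 (m b n ρ : ℕ) : Fintype.card (T2 m b n ρ) =
    2 ^ (m * (b + n) + m * b + ρ * b) := by
  simp only [Fintype.card_prod, Fintype.card_fun, Fintype.card_fin, ZMod.card]
  rw [← pow_mul, ← pow_mul, ← pow_mul, ← pow_add, ← pow_add]
  congr 1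
  ring

theorem card_T1 (m b b2 ρ : ℕ) : Fintype.card (T1 m b b2 ρ) =
    2 ^ (m * b + m * b + m * b2 + ρ * b2) := by
  simp only [Fintype.card_prod, Fintype.card_fun, Fintype.card_fin, ZMod.card]
  rw [← pow_mul, ← pow_mul, ← pow_mul, ← pow_add, ← pow_add, ← pow_add]
  congr 1
  ring

theorem card_aux {A w x y b : ℕ} (h1 : A * 2 ^ x ≤ 2 ^ y * w) (h2 : y + 3 * b ≤ x) :
    A * 8 ^ b ≤ w := by
  have h8 : (8 : ℕ) ^ b = 2 ^ (3 * b) := by rw [pow_mul]; norm_num
  have h3 : A * 8 ^ b * 2 ^ y ≤ w * 2 ^ y := by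
    calc A * 8 ^ b * 2 ^ y = A * 2 ^ (y + 3 * b) := by rw [h8, pow_add]; ring
      _ ≤ A * 2 ^ x := Nat.mul_le_mul_left _ (Nat.pow_le_pow_right (by norm_num) h2)
      _ ≤ 2 ^ y * w := h1
      _ = w * 2 ^ y := by ring
  exact Nat.le_of_mul_le_mul_right h3 (by positivity)

theorem arith2 {m b ρ : ℕ} (hm : 1 ≤ m) (hρ : 16 * m ≤ ρ) :
    (m * (b + (b + 2) / 3) + m * b + ρ * b) + 3 * b ≤ ρ * (b + (b + 2) / 3) := by
  obtain ⟨n, hn⟩ : ∃ n, n = (b + 2) / 3 := ⟨_, rfl⟩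
  rw [← hn]
  have hb : b ≤ 3 * n := by omega
  have h1 : m * b ≤ m * (3 * n) := Nat.mul_le_mul_left _ hb
  have h2 : 16 * m * n ≤ ρ * n := Nat.mul_le_mul_right _ hρ
  have h3 : n ≤ m * n := Nat.le_mul_of_pos_left _ hm
  nlinarith

theorem arith1 {m b ρ : ℕ} (hb : 1 ≤ b) (hm : 1 ≤ m) (hbm : b ≤ m) (hρ : 16 * m ≤ ρ) :
    (m * b + m * b + m * (b + (b - 1) / 3) + (ρ - b) * (b + (b - 1) / 3)) + 3 * b ≤
      (ρ - b) * b + (ρ - b) * b := by
  obtain ⟨b2, hb2⟩ : ∃ b2, b2 = b + (b - 1) / 3 := ⟨_, rfl⟩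
  rw [← hb2]
  obtain ⟨r, hr⟩ : ∃ r, r = ρ - b := ⟨_, rfl⟩
  rw [← hr]
  have hr15 : 15 * m ≤ r := by omega
  obtain ⟨x, hx⟩ : ∃ x, b + b = b2 + x := ⟨b + b - b2, by omega⟩
  have hx3 : 2 * b + 1 ≤ 3 * x := by omega
  have h1 : r * b + r * b = r * b2 + r * x := by rw [← Nat.mul_add, hx, Nat.mul_add]
  rw [h1]
  have h2 : 15 * m * x ≤ r * x := Nat.mul_le_mul_right _ hr15
  have h3 : m * b2 ≤ m * (b + b) := Nat.mul_le_mul_left _ (by omega)
  have h4 : m * (2 * b + 1) ≤ m * (3 * x) := Nat.mul_le_mul_left _ hx3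
  have h5 : b ≤ m * b := Nat.le_mul_of_pos_left _ hm
  nlinarith

theorem sum_geom (m : ℕ) : ∑ b ∈ Icc 1 m, ((1 : ℝ) / 8) ^ b ≤ 1 / 7 := by
  have h : ∀ m : ℕ, ∑ b ∈ Icc 1 m, ((1 : ℝ) / 8) ^ b = (1 - (1 / 8) ^ m) / 7 := by
    intro m
    induction m with
    | zero => simp
    | succ m ih =>
      rw [Finset.sum_Icc_succ_top (by omega), ih, pow_succ]
      ring
  rw [h]
  have : (0 : ℝ) ≤ (1 / 8) ^ m := by positivity
  linarith

theorem finrank_pos' {m : ℕ} (S : Finset (V m)) (h : 2 ≤ S.card) :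
    1 ≤ Module.finrank (ZMod 2) (Submodule.span (ZMod 2) (S : Set (V m))) := by
  by_contra hlt
  have h0 : Module.finrank (ZMod 2) (Submodule.span (ZMod 2) (S : Set (V m))) = 0 := by omega
  rw [Submodule.finrank_eq_zero] at h0
  have h1 : S ⊆ {0} := by
    intro x hx
    have h2 : x ∈ Submodule.span (ZMod 2) (S : Set (V m)) := Submodule.subset_span hx
    rw [h0, Submodule.mem_bot] at h2
    rw [h2]
    exact Finset.mem_singleton_self _
  have := Finset.card_le_card h1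
  simp at this
  omega

theorem exists_good (m e t d : ℕ) (hd : e + 1 ≤ d) (hm : 16 * m ≤ phi t e) :
    ∃ F, IsPol2 m d F ∧ ∀ c, ¬ Blocks m (2 ^ (t + 4)) F c := by
  classical
  obtain ⟨ρ, hρ⟩ : ∃ ρ, ρ = phi t e := ⟨_, rfl⟩
  rw [← hρ] at hm
  let B2 : ℕ → ZMod 2 → Finset (V m → V m → ZMod 2) := fun b c =>
    (W m d).filter (fun F => ∃ σ, Full m d (p2 m b ((b + 2) / 3) ρ σ) ∧
      ∀ i, F (p2 m b ((b + 2) / 3) ρ σ i).1 (p2 m b ((b + 2) / 3) ρ σ i).2 = c)
  let B3 : ℕ → ZMod 2 → Finset (V m → V m → ZMod 2) := fun b c =>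
    (W m d).filter (fun F => ∃ σ, Full m d (p3 m b ((b + 2) / 3) ρ σ) ∧
      ∀ i, F (p3 m b ((b + 2) / 3) ρ σ i).1 (p3 m b ((b + 2) / 3) ρ σ i).2 = c)
  let B1 : ℕ → ZMod 2 → Finset (V m → V m → ZMod 2) := fun b c =>
    (W m d).filter (fun F => ∃ σ, Full m d (p1 m b (b + (b - 1) / 3) (ρ - b) σ) ∧
      ∀ i, F (p1 m b (b + (b - 1) / 3) (ρ - b) σ i).1
        (p1 m b (b + (b - 1) / 3) (ρ - b) σ i).2 = c)
  have hB2 : ∀ b ∈ Icc 1 m, ∀ c, (B2 b c).card * 8 ^ b ≤ (W m d).card := by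
    intro b hb c
    rw [Finset.mem_Icc] at hb
    have h1 := card_union (m := m) (d := d) (p2 m b ((b + 2) / 3) ρ) c
    rw [card_T2, Fintype.card_prod, Fintype.card_fin, Fintype.card_fin] at h1
    exact card_aux h1 (arith2 (by omega) hm)
  have hB3 : ∀ b ∈ Icc 1 m, ∀ c, (B3 b c).card * 8 ^ b ≤ (W m d).card := by
    intro b hb c
    rw [Finset.mem_Icc] at hb
    have h1 := card_union (m := m) (d := d) (p3 m b ((b + 2) / 3) ρ) c
    rw [card_T2, Fintype.card_prod, Fintype.card_fin, Fintype.card_fin] at h1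
    exact card_aux h1 (arith2 (by omega) hm)
  have hB1 : ∀ b ∈ Icc 1 m, ∀ c, (B1 b c).card * 8 ^ b ≤ (W m d).card := by
    intro b hb c
    rw [Finset.mem_Icc] at hb
    have h1 := card_union (m := m) (d := d) (p1 m b (b + (b - 1) / 3) (ρ - b)) c
    rw [card_T1, Fintype.card_sum, Fintype.card_prod, Fintype.card_fin, Fintype.card_fin] at h1
    exact card_aux h1 (arith1 hb.1 (by omega) hb.2 hm)
  let Bad : Finset (V m → V m → ZMod 2) := (Icc 1 m).biUnion fun b =>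
    (univ : Finset (ZMod 2)).biUnion fun c => B2 b c ∪ B3 b c ∪ B1 b c
  have hBad : Bad.card < (W m d).card := by
    have h1 : (Bad.card : ℝ) ≤ ∑ b ∈ Icc 1 m, ∑ c : ZMod 2,
        (((B2 b c).card : ℝ) + (B3 b c).card + (B1 b c).card) := by
      have h2 : Bad.card ≤ ∑ b ∈ Icc 1 m, ∑ c : ZMod 2,
          ((B2 b c).card + (B3 b c).card + (B1 b c).card) := by
        refine Finset.card_biUnion_le.trans (Finset.sum_le_sum fun b _ => ?_)
        refine Finset.card_biUnion_le.trans (Finset.sum_le_sum fun c _ => ?_)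
        exact (Finset.card_union_le _ _).trans (Nat.add_le_add_right (Finset.card_union_le _ _) _)
      exact_mod_cast h2
    have hw : (0 : ℝ) < (W m d).card := by exact_mod_cast W_pos m d
    have h3 : ∀ {A b : ℕ}, A * 8 ^ b ≤ (W m d).card → (A : ℝ) ≤ (W m d).card * (1 / 8) ^ b := by
      intro A b h
      have h4 : (A : ℝ) * 8 ^ b ≤ (W m d).card := by exact_mod_cast h
      rw [one_div, inv_pow, ← div_eq_mul_inv, le_div_iff₀ (by positivity)]
      exact h4
    have h5 : ∑ b ∈ Icc 1 m, ∑ c : ZMod 2,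
        (((B2 b c).card : ℝ) + (B3 b c).card + (B1 b c).card) ≤
        ∑ b ∈ Icc 1 m, (6 * ((W m d).card : ℝ)) * (1 / 8) ^ b := by
      refine Finset.sum_le_sum fun b hb => ?_
      calc ∑ c : ZMod 2, (((B2 b c).card : ℝ) + (B3 b c).card + (B1 b c).card)
          ≤ ∑ _c : ZMod 2, (3 * ((W m d).card * (1 / 8 : ℝ) ^ b)) := by
            refine Finset.sum_le_sum fun c _ => ?_
            have := h3 (hB1 b hb c)
            have := h3 (hB2 b hb c)
            have := h3 (hB3 b hb c)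
            linarith
        _ = (6 * ((W m d).card : ℝ)) * (1 / 8) ^ b := by
            rw [Finset.sum_const, Finset.card_univ, ZMod.card, nsmul_eq_mul]
            push_cast
            ring
    rw [← Finset.mul_sum] at h5
    have h6 := mul_le_mul_of_nonneg_left (sum_geom m) (by positivity : 0 ≤ 6 * ((W m d).card : ℝ))
    have h7 : (Bad.card : ℝ) < (W m d).card := by
      have := h1.trans (h5.trans h6)
      linarith
    exact_mod_cast h7
  obtain ⟨F, hF, hFB⟩ := Finset.exists_mem_notMem_of_card_lt_card hBad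
  refine ⟨F, mem_W.1 hF, ?_⟩
  rintro c ⟨S, hS1, hS2⟩
  apply hFB
  -- ranks
  let r : Fin 3 → ℕ := fun i =>
    Module.finrank (ZMod 2) (Submodule.span (ZMod 2) (S i : Set (V m)))
  have hrm : ∀ i, r i ≤ m := by
    intro i
    have h1 := Submodule.finrank_le (Submodule.span (ZMod 2) (S i : Set (V m)))
    rw [Module.finrank_fin_fun] at h1
    exact h1
  have h16 : 2 ≤ 2 ^ (t + 4) := by
    calc 2 = 2 ^ 1 := by norm_num
      _ ≤ 2 ^ (t + 4) := Nat.pow_le_pow_right (by norm_num) (by omega)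
  have hr1 : ∀ i, 1 ≤ r i := fun i => finrank_pos' _ (h16.trans (hS1 i))
  have hI : ∀ i, ∃ I ⊆ S i, Interp e I ∧ I.card = ρ := by
    intro i
    rw [hρ]
    apply exists_interp
    have h1 : ((2 ^ (t + 4) : ℕ) : ℝ) ≤ (S i).card := by exact_mod_cast hS1 i
    push_cast at h1
    rw [pow_add] at h1
    have h2 : (0 : ℝ) ≤ (3 / 2) ^ t := by positivity
    norm_num at h1 ⊢
    linarith
  obtain ⟨i0, hi0⟩ := Finite.exists_min r
  obtain ⟨i1, hi1⟩ := Finite.exists_max r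
  have hbm : r i0 ∈ Icc 1 m := Finset.mem_Icc.2 ⟨hr1 i0, hrm i0⟩
  obtain ⟨b, hb⟩ : ∃ b, b = r i0 := ⟨_, rfl⟩
  rw [Finset.mem_biUnion]
  refine ⟨b, by rw [hb]; exact hbm, ?_⟩
  rw [Finset.mem_biUnion]
  refine ⟨c, mem_univ _, ?_⟩
  rw [Finset.mem_union, Finset.mem_union]
  by_cases hcase : 4 * b ≤ 3 * r i1
  · -- very different ranks
    have hbn : b + (b + 2) / 3 ≤ r i1 := by omega
    have hb1 : 1 ≤ b := by rw [hb]; exact hr1 i0
    have hne : i0 ≠ i1 := by
      intro h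
      rw [← h, ← hb] at hcase
      omega
    obtain ⟨I, hIS, hIe, hIc⟩ := hI i0
    obtain ⟨y, hy1, hy2⟩ := exists_indep (S i1) hbn
    obtain ⟨w, hw⟩ := exists_gen (n := b) (S i0) (by rw [hb])
    let en := Finset.equivFinOfCardEq hIc
    let x : Fin ρ → V m := fun i => (en.symm i : V m)
    have hxI : ∀ i, x i ∈ I := fun i => (en.symm i).2
    have hxint : ∀ g : Fin ρ → ZMod 2, ∃ q, IsPol m e q ∧ ∀ i, q (x i) = g i := by
      intro g
      obtain ⟨q, hq1, hq2⟩ := hIe (fun v => if h : v ∈ I then g (en ⟨v, h⟩) else 0)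
      refine ⟨q, hq1, fun i => ?_⟩
      rw [hq2 _ (hxI i), dif_pos (hxI i)]
      congr 1
      have : (⟨x i, hxI i⟩ : I) = en.symm i := Subtype.ext rfl
      rw [this, Equiv.apply_symm_apply]
    have hC : ∀ i, ∃ cc : Fin b → ZMod 2, x i = ∑ l, cc l • w l := fun i => hw _ (hIS (hxI i))
    choose C hC using hC
    let σ : T2 m b ((b + 2) / 3) ρ := (y, w, C)
    rcases lt_or_gt_of_ne hne with hlt | hlt
    · left; left
      rw [Finset.mem_filter]
      refine ⟨hF, σ, ?_, ?_⟩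
      · have h1 := full_right hd x hxint y hy1
        have h2 : p2 m b ((b + 2) / 3) ρ σ = fun il : Fin ρ × Fin (b + (b + 2) / 3) =>
            (x il.1, y il.2) := by
          funext il
          exact Prod.ext (hC il.1).symm rfl
        rw [h2]
        exact h1
      · intro il
        change F (lc w (C il.1)) (y il.2) = c
        have h3 : lc w (C il.1) = x il.1 := (hC il.1).symm
        rw [h3]
        exact hS2 _ _ hlt _ (hIS (hxI _)) _ (hy2 _)
    · left; right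
      rw [Finset.mem_filter]
      refine ⟨hF, σ, ?_, ?_⟩
      · have h1 := full_left hd x hxint y hy1
        have h2 : p3 m b ((b + 2) / 3) ρ σ = fun il : Fin ρ × Fin (b + (b + 2) / 3) =>
            (y il.2, x il.1) := by
          funext il
          exact Prod.ext rfl (hC il.1).symm
        rw [h2]
        exact h1
      · intro il
        change F (y il.2) (lc w (C il.1)) = c
        have h3 : lc w (C il.1) = x il.1 := (hC il.1).symm
        rw [h3]
        exact hS2 _ _ hlt _ (hy2 _) _ (hIS (hxI _))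
  · -- comparable ranks
    right
    push Not at hcase
    obtain ⟨I, hIS, hIe, hIc⟩ := hI 1
    obtain ⟨x, hx1, hx2⟩ := exists_indep (a := b) (S 0) (by rw [hb]; exact hi0 0)
    obtain ⟨z, hz1, hz2⟩ := exists_indep (a := b) (S 2) (by rw [hb]; exact hi0 2)
    obtain ⟨w, hw⟩ := exists_gen (n := b + (b - 1) / 3) (S 1) (by
      have h1 := hi1 1
      have h2 : r 1 ≤ b + (b - 1) / 3 := by omega
      exact h2)
    obtain ⟨J, hJI, hJc, hJ⟩ := exists_interp_vanish I hIe (univ.image z)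
    have hzc : (univ.image z).card ≤ b := by
      refine Finset.card_image_le.trans ?_
      rw [Finset.card_univ, Fintype.card_fin]
    obtain ⟨J', hJ'J, hJ'c⟩ := Finset.exists_subset_card_eq (s := J) (n := ρ - b) (by omega)
    let en := Finset.equivFinOfCardEq hJ'c
    let y : Fin (ρ - b) → V m := fun i => (en.symm i : V m)
    have hyJ : ∀ i, y i ∈ J' := fun i => (en.symm i).2
    have hyint : ∀ g : Fin (ρ - b) → ZMod 2, ∃ q, IsPol m e q ∧ (∀ i, q (y i) = g i) ∧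
        ∀ l, q (z l) = 0 := by
      intro g
      obtain ⟨q, hq1, hq2, hq3⟩ := hJ (fun v => if h : v ∈ J' then g (en ⟨v, h⟩) else 0)
      refine ⟨q, hq1, fun i => ?_, fun l => hq3 _ (Finset.mem_image_of_mem _ (mem_univ _))⟩
      rw [hq2 _ (hJ'J (hyJ i)), dif_pos (hyJ i)]
      congr 1
      have : (⟨y i, hyJ i⟩ : J') = en.symm i := Subtype.ext rfl
      rw [this, Equiv.apply_symm_apply]
    have hyS : ∀ i, y i ∈ S 1 := fun i => hIS (hJI (hJ'J (hyJ i)))
    have hC : ∀ i, ∃ cc : Fin (b + (b - 1) / 3) → ZMod 2, y i = ∑ l, cc l • w l :=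
      fun i => hw _ (hyS i)
    choose C hC using hC
    let σ : T1 m b (b + (b - 1) / 3) (ρ - b) := (x, z, w, C)
    rw [Finset.mem_filter]
    have h2 : p1 m b (b + (b - 1) / 3) (ρ - b) σ =
        Sum.elim (fun ji : Fin (ρ - b) × Fin b => (x ji.2, y ji.1))
          (fun jl : Fin (ρ - b) × Fin b => (y jl.1, z jl.2)) := by
      funext il
      rcases il with il | il
      · exact Prod.ext rfl (hC il.1).symm
      · exact Prod.ext (hC il.1).symm rfl
    refine ⟨hF, σ, ?_, ?_⟩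
    · rw [h2]
      exact full_mid hd x z hx1 hz1 y hyint
    · rw [h2]
      rintro (⟨j, i⟩ | ⟨j, l⟩)
      · exact hS2 0 1 (by decide) _ (hx2 _) _ (hyS _)
      · exact hS2 1 2 (by decide) _ (hyS _) _ (hz2 _)

end Q119.LD
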